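import Mathlib

/-!
# Kloosterman curves: definitions
-/

set_option autoImplicit false

namespace Pool.Agent.KS6_5.KL

open Polynomial

/-- The points with coordinates in `E` of the affine curve
`z ^ (p ^ e) - z = A x + B / x + C`, `x ≠ 0`. -/
def curvePoints (p e : ℕ) {F : Type} (E : Type) [Field F] [Field E] [Algebra F E] (A B C : F) :
    Set (E × E) :=
  {P | P.1 ≠ 0 ∧ P.2 ^ (p ^ e) - P.2 =
    algebraMap F E A * P.1 + algebraMap F E B * P.1⁻¹ + algebraMap F E C}

/-- The operator `Φ` is bijective and semisimple (`V` is spanned by eigenvectors), and for all finite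
extensions `E` of `F` the trace of its power with the exponent `s [E : F]` is `|E| + 1 - N`, where `N`
is the number of points with coordinates in `E` of the smooth projective curve with the affine
equation `z ^ (p ^ e) - z = A x + B / x + C`, namely `2` plus the number of the affine points. So
(Weil, Lefschetz) `V` is the first cohomology group, `Φ ^ s` being the Frobenius over `F`. -/
structure IsFirstCohomology (p e s : ℕ) {F Ω V : Type} [Field F] (A B C : F) [Field Ω]
    [AddCommGroup V] [Module Ω V] (Φ : V →ₗ[Ω] V) : Prop where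
  injective : Function.Injective Φ
  semisimple : Submodule.span Ω {x : V | ∃ μ : Ω, Φ x = μ • x} = ⊤
  trace : ∀ (E : Type) [Field E] [Finite E] [Algebra F E],
    LinearMap.trace Ω V (Φ ^ (s * Module.finrank F E)) =
      (Nat.card E : Ω) + 1 - (2 + Nat.card (curvePoints p e E A B C))

/-- Some power `β ^ N` of the number `β` is a root of a rational polynomial `Q ≠ 0` such that for
each root `γ` of `Q` the absolute values `‖l γ‖`, for all embeddings `l` of the algebraic numbers in
the algebraic closure of the `p`-adic numbers, lie within the factor `q ^ (w N / 2)` of some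
constant: the slopes of `β`, with respect to `q`, lie in an interval of length `w`. -/
def SlopesWithin (p : ℕ) [Fact p.Prime] (q : ℕ) (w : ℝ) {Ω : Type} [Field Ω] [CharZero Ω] (β : Ω) :
    Prop :=
  ∃ N : ℕ, 0 < N ∧ ∃ Q : ℚ[X], Q ≠ 0 ∧ aeval (β ^ N) Q = 0 ∧
    ∀ γ : AlgebraicClosure ℚ, aeval γ Q = 0 → ∃ c : ℝ,
      ∀ l : AlgebraicClosure ℚ →+* PadicAlgCl p, 2 * |Real.log ‖l γ‖ - c| ≤ w * (N * Real.log q)

/-- `f` commutes with a power of the Frobenius. -/
def IsTateMap {κ Ω M : Type} {V : κ → Type} [Field Ω] [∀ k, AddCommGroup (V k)]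
    [∀ k, Module Ω (V k)] [AddCommGroup M] [Module Ω M] (Φ : ∀ k, V k →ₗ[Ω] V k)
    (G : M →ₗ[Ω] M) (f : MultilinearMap Ω V M) : Prop :=
  ∃ s : ℕ, 0 < s ∧ ∀ v, f (fun k => (Φ k ^ s) (v k)) = (G ^ s) (f v)

/-- `ψ` is the product of Tate forms in two variables and of a Tate map in at most `w ^ 2`
variables: there are a set `S` of at most `w ^ 2` variables and a partition of the other variables in
sets `B` with two elements, such that `ψ` is the product of bilinear forms `f B` in the two variables
of `B`, which are multiplied by `q ^ s` by the `s`-th powers of the operators `Φ k`, for some `s > 0`,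
and of a multilinear map `g` in the variables in `S` with values in `M`, such that
`G ^ s g(v) = q ^ (r s) g(Φ ^ s v)` for some `s > 0`, where `r` is the number of the sets `B`. -/
def IsProductOfPairs {κ Ω M : Type} [Fintype κ] [DecidableEq κ] {V : κ → Type} [Field Ω]
    [∀ k, AddCommGroup (V k)] [∀ k, Module Ω (V k)] [AddCommGroup M] [Module Ω M]
    (q : ℕ) (w : ℝ) (Φ : ∀ k, V k →ₗ[Ω] V k) (G : M →ₗ[Ω] M) (ψ : MultilinearMap Ω V M) : Prop :=
  ∃ S : Finset κ, (S.card : ℝ) ≤ w ^ 2 ∧ ∃ (P : Finpartition (Finset.univ \ S))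
    (f : ∀ B : Finset κ, MultilinearMap Ω (fun k : B => V k) Ω)
    (g : MultilinearMap Ω (fun k : S => V k) M),
    (∀ B ∈ P.parts, B.card = 2 ∧
      ∃ s : ℕ, 0 < s ∧ ∀ v, f B (fun k => (Φ k ^ s) (v k)) = (q : Ω) ^ s * f B v) ∧
    (∃ s : ℕ, 0 < s ∧ ∀ v, (G ^ s) (g v) =
      ((q : Ω) ^ P.parts.card) ^ s • g (fun k => (Φ k ^ s) (v k))) ∧
    ∀ v, ψ v = (∏ B ∈ P.parts, f B (fun k => v k)) • g (fun k => v k)

end Pool.Agent.KS6_5.KL
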