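import Pool.Agent.KS6_5.KL.LTwo
import Pool.Agent.KS6_5.KL.Defs
import Pool.Graph.R_pool_sql_team_seeded_ab47071d.TH121.KT.Main

/-!
# Tate maps for numbers with equal slopes
-/

set_option autoImplicit false
set_option linter.unusedSectionVars false

namespace Pool.Agent.KS6_5.KL

open NumberField Polynomial Module Pool.Agent.TH121.KT Pool.Agent.KS6_5.SP

noncomputable section

/-- Match opposite letters as long as possible. -/
theorem exists_matching {κ Y : Type*} [DecidableEq κ] (c : Y → Y) (φ : κ → Y) :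
    ∀ (n : ℕ) (A : Finset κ), A.card = n → ∃ S ⊆ A, (∀ i ∈ S, ∀ j ∈ S, i ≠ j → φ j ≠ c (φ i)) ∧
      ∃ P : Finpartition (A \ S), ∀ B ∈ P.parts, ∃ i j, i ≠ j ∧ B = {i, j} ∧ φ j = c (φ i) := by
  classical
  intro n
  induction n using Nat.strong_induction_on with
  | _ n ih =>
  intro A hA
  by_cases h : ∃ i ∈ A, ∃ j ∈ A, i ≠ j ∧ φ j = c (φ i)
  · obtain ⟨i, hi, j, hj, hij, hφ⟩ := h
    have hsub : ({i, j} : Finset κ) ⊆ A := by
      intro k hk
      rcases Finset.mem_insert.1 hk with rfl | hk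
      · exact hi
      · rw [Finset.mem_singleton.1 hk]
        exact hj
    have hlt : (A \ {i, j}).card < n := by
      rw [← hA]
      exact Finset.card_lt_card (Finset.sdiff_ssubset hsub ⟨i, Finset.mem_insert_self i _⟩)
    obtain ⟨S, hS, hop, P, hP⟩ := ih _ hlt (A \ {i, j}) rfl
    have hSA : S ⊆ A := hS.trans Finset.sdiff_subset
    have hdisj : Disjoint S ({i, j} : Finset κ) :=
      Finset.disjoint_of_subset_left hS Finset.sdiff_disjoint
    refine ⟨S, hSA, hop, P.extend (b := {i, j}) (c := A \ S) ?_ ?_ ?_, ?_⟩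
    · exact (Finset.insert_nonempty i _).ne_empty
    · exact Finset.disjoint_of_subset_left Finset.sdiff_subset Finset.sdiff_disjoint
    · ext k
      simp only [Finset.sup_eq_union, Finset.mem_union, Finset.mem_sdiff, Finset.mem_insert,
        Finset.mem_singleton]
      constructor
      · rintro (⟨⟨h1, -⟩, h3⟩ | h1)
        · exact ⟨h1, h3⟩
        · refine ⟨hsub (by simpa using h1), fun h2 => ?_⟩
          exact Finset.disjoint_left.1 hdisj h2 (by simpa using h1)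
      · rintro ⟨h1, h2⟩
        by_cases h3 : k = i ∨ k = j
        · exact Or.inr h3
        · exact Or.inl ⟨⟨h1, h3⟩, h2⟩
    · intro B hB
      rw [Finpartition.extend_parts, Finset.mem_insert] at hB
      rcases hB with rfl | hB
      · exact ⟨i, j, hij, rfl, hφ⟩
      · exact hP B hB
  · push Not at h
    refine ⟨A, Finset.Subset.refl A, fun i hi j hj hij => h i hi j hj hij, ?_⟩
    rw [Finset.sdiff_self]
    refine ⟨⊥, fun B hB => ?_⟩
    simp at hB

variable {p : ℕ} [Fact p.Prime] {F₀ : IntermediateField ℚ Qb} {A : Finset Qb}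
variable {κ Ω M : Type} [Fintype κ] [DecidableEq κ] [Field Ω] [CharZero Ω] [IsAlgClosed Ω]

theorem letters [FiniteDimensional ℚ F₀] {q T : ℕ} (hq : 0 < q) (hT : 0 < T)
    (H : EqualSlopes p F₀ (T * Real.log q) A) (τ : Qb →+* Ω)
    {Q : ℚ[X]} (hQ : Q ≠ 0) (μ : κ → Ω)
    (hμ : ∀ k, ∃ x ∈ A, ∃ N : ℕ, 0 < N ∧ μ k ^ (2 * T * N) = ((q : Ω) ^ T * τ x) ^ N)
    {β : Ω} {M₀ s : ℕ} (hM₀ : 0 < M₀) (hβQ : aeval (β ^ M₀) Q = 0) (w : ℝ)
    (hQs : ∀ γ : Qb, aeval γ Q = 0 → ∃ c : ℝ,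
      ∀ l : Qb →+* PadicAlgCl p, 2 * |Real.log ‖l γ‖ - c| ≤ w * (M₀ * Real.log q))
    (hs : 0 < s) (hβs : β ^ s = (∏ k, μ k) ^ s) :
    ∃ S : Finset κ, (S.card : ℝ) ≤ w ^ 2 ∧ ∃ P : Finpartition (Finset.univ \ S), ∀ B ∈ P.parts,
      B.card = 2 ∧ ∃ t : ℕ, 0 < t ∧ (∏ k ∈ B, μ k) ^ t = (q : Ω) ^ t := by
  classical
  choose x hxA N hN hx using hμ
  obtain ⟨ιp⟩ : Nonempty (Qb →ₐ[ℚ] PadicAlgCl p) := ⟨IsAlgClosed.lift⟩
  let ι : Qb →+* PadicAlgCl p := ιp.toRingHom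
  obtain ⟨t, ht, htA⟩ := EqualSlopes.exists_exponent A
  have hNN : 0 < ∏ k, N k := Finset.prod_pos fun k _ => hN k
  set n : ℕ := t * ∏ k, N k with hn
  have hn0 : 0 < n := Nat.mul_pos ht hNN
  have hq0 : (q : Ω) ≠ 0 := Nat.cast_ne_zero.2 hq.ne'
  have hqQ : (q : Qb) ≠ 0 := Nat.cast_ne_zero.2 hq.ne'
  have hqR : (0 : ℝ) < q := Nat.cast_pos.2 hq
  -- the letters to the power `n`
  have hμn : ∀ k, μ k ^ (2 * T * n) = τ ((q : Qb) ^ (T * n) * x k ^ n) := by
    intro k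
    have h1 : 2 * T * n = 2 * T * N k * (t * ∏ k' ∈ Finset.univ.erase k, N k') := by
      rw [hn, ← Finset.mul_prod_erase Finset.univ N (Finset.mem_univ k)]
      ring
    have h2 : n = N k * (t * ∏ k' ∈ Finset.univ.erase k, N k') := by
      rw [hn, ← Finset.mul_prod_erase Finset.univ N (Finset.mem_univ k)]
      ring
    rw [h1, pow_mul, hx k, ← pow_mul, ← h2, mul_pow, map_mul, map_pow, map_natCast, map_pow,
      ← pow_mul]
  obtain ⟨γ, hγQ, hγ⟩ := exists_root τ hQ hβQ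
  have hγ0 : γ ≠ 0 := by
    rintro rfl
    rw [map_zero] at hγ
    have h1 : β = 0 := (pow_eq_zero_iff hM₀.ne').1 hγ.symm
    rw [h1, zero_pow hs.ne'] at hβs
    have h2 : ∏ k, μ k = 0 := (pow_eq_zero_iff hs.ne').1 hβs.symm
    obtain ⟨k, -, hk⟩ := Finset.prod_eq_zero_iff.1 h2
    have h3 := hx k
    rw [hk, zero_pow (Nat.mul_pos (Nat.mul_pos two_pos hT) (hN k)).ne'] at h3
    have h4 : (q : Ω) ^ T * τ (x k) ≠ 0 := mul_ne_zero (pow_ne_zero _ hq0)
      ((_root_.map_ne_zero τ).2 (H.ne_zero (hxA k)))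
    exact pow_ne_zero _ h4 h3.symm
  -- the relation
  have hrel : γ ^ (2 * T * n * s) = (q : Qb) ^ (T * n * Fintype.card κ * (s * M₀)) *
      (∏ k, x k ^ n) ^ (s * M₀) := by
    apply τ.injective
    have h1 : (∏ k, μ k) ^ (2 * T * n) = τ ((q : Qb) ^ (T * n * Fintype.card κ) *
        ∏ k, x k ^ n) := by
      rw [← Finset.prod_pow, Finset.prod_congr rfl fun k _ => hμn k, ← map_prod,
        Finset.prod_mul_distrib, Finset.prod_const, Finset.card_univ, ← pow_mul]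
    rw [map_pow, hγ, ← pow_mul]
    rw [show M₀ * (2 * T * n * s) = s * (2 * T * n * M₀) by ring, pow_mul, hβs, ← pow_mul,
      show s * (2 * T * n * M₀) = 2 * T * n * (s * M₀) by ring, pow_mul, h1, ← map_pow, mul_pow,
      ← pow_mul]
  obtain ⟨c, hc⟩ := hQs γ hγQ
  let f : GQ → ℝ := fun g => (2 * T * n / M₀) * Real.log ‖ι (g γ)‖ -
    (T * n * Fintype.card κ) * Real.log ‖ι (g (q : Qb))‖
  have hM' : (0 : ℝ) < M₀ := Nat.cast_pos.2 hM₀
  have hs' : (0 : ℝ) < s := Nat.cast_pos.2 hs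
  have hn' : (0 : ℝ) < n := Nat.cast_pos.2 hn0
  have hT' : (0 : ℝ) < T := Nat.cast_pos.2 hT
  have hnorm : ∀ (g : GQ) (z : Qb), z ≠ 0 → 0 < ‖ι (g z)‖ := fun g z hz =>
    norm_pos_iff.2 ((_root_.map_ne_zero _).2 ((_root_.map_ne_zero _).2 hz))
  have hlog : ∀ g : GQ, ∑ k, Real.log ‖ι (g (x k ^ n))‖ = f g := by
    intro g
    have h1 := congrArg (fun z => Real.log ‖ι (g z)‖) hrel
    simp only [map_mul, map_pow, map_prod, norm_mul, norm_pow, norm_prod] at h1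
    have hx0 : ∀ k, 0 < ‖ι (g (x k))‖ := fun k => hnorm g _ (H.ne_zero (hxA k))
    have hqg : 0 < ‖ι (g (q : Qb))‖ := hnorm g _ hqQ
    rw [Real.log_mul (pow_pos hqg _).ne' (pow_pos (Finset.prod_pos fun k _ =>
      pow_pos (hx0 k) _) _).ne', Real.log_pow, Real.log_pow, Real.log_pow,
      Real.log_prod (fun k _ => (pow_pos (hx0 k) _).ne')] at h1
    have h2 : ∀ k, Real.log ‖ι (g (x k ^ n))‖ = Real.log (‖ι (g (x k))‖ ^ n) := by
      intro k
      rw [map_pow, map_pow, norm_pow]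
    rw [Finset.sum_congr rfl fun k _ => h2 k]
    simp only [f]
    push_cast at h1
    have h3 : (s * M₀ : ℝ) * ((2 * T * n / M₀) * Real.log ‖ι (g γ)‖ -
        (T * n * Fintype.card κ) * Real.log ‖ι (g (q : Qb))‖ -
        ∑ k, Real.log (‖ι (g (x k))‖ ^ n)) = 0 := by
      have h4 : (s * M₀ : ℝ) * ((2 * T * n / M₀) * Real.log ‖ι (g γ)‖) =
          2 * T * n * s * Real.log ‖ι (g γ)‖ := by
        field_simp
      rw [mul_sub, mul_sub, h4, h1]
      ring
    have h5 := (mul_eq_zero.1 h3).resolve_left (mul_pos hs' hM').ne'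
    linarith
  have hbound : ∀ g, |f g - ((2 * T * n / M₀) * c - (T * n * Fintype.card κ) *
      Real.log ‖ι (q : Qb)‖)| ≤ w * (n * (T * Real.log q)) := by
    intro g
    have h1 := hc (ι.comp (g : Qb →+* Qb))
    change 2 * |Real.log ‖ι (g γ)‖ - c| ≤ _ at h1
    have h2 : f g - ((2 * T * n / M₀) * c - (T * n * Fintype.card κ) * Real.log ‖ι (q : Qb)‖) =
        (T * n / M₀) * (2 * (Real.log ‖ι (g γ)‖ - c)) := by
      simp only [f, map_natCast]
      ring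
    rw [h2, abs_mul, abs_mul, abs_of_pos (show (0 : ℝ) < T * n / M₀ by positivity),
      abs_of_pos (two_pos : (0 : ℝ) < 2)]
    calc (T * n / M₀ : ℝ) * (2 * |Real.log ‖ι (g γ)‖ - c|)
        ≤ (T * n / M₀) * (w * (M₀ * Real.log q)) := by
          refine mul_le_mul_of_nonneg_left h1 (by positivity)
      _ = w * (n * (T * Real.log q)) := by
          field_simp
  -- the matching
  obtain ⟨S, -, hop, P, hP⟩ := exists_matching (fun y : Qb => y⁻¹) (fun k => x k ^ n) _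
    (Finset.univ : Finset κ) rfl
  have hne : ∀ k, x k ^ n ≠ (x k ^ n)⁻¹ := by
    intro k h
    have h2 := congrArg (fun w => Real.log ‖ι w‖) h
    simp only [map_inv₀, norm_inv, Real.log_inv, map_pow, norm_pow, Real.log_pow] at h2
    have h3 : (n : ℝ) * Real.log ‖ι (x k)‖ = 0 := by linarith
    have h4 := (mul_eq_zero.1 h3).resolve_left hn'.ne'
    have h5 := H.slope _ (hxA k) ι
    rw [h4, abs_zero] at h5
    exact H.pos.ne h5
  have hcardS := H.card_le ι htA hn0 (Dvd.intro _ rfl) (S := S) (fun k => x k) (fun k => hxA k)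
    (fun k l => by
      by_cases hkl : l = k
      · rw [hkl]
        exact hne k
      · exact hop l l.2 k k.2 (fun h => hkl (Subtype.ext h)))
    f _ w hbound (fun g => by
      rw [← hlog g]
      have h1 : ∑ k, Real.log ‖ι (g (x k ^ n))‖ = (∑ k ∈ S, Real.log ‖ι (g (x k ^ n))‖) +
          ∑ k ∈ Finset.univ \ S, Real.log ‖ι (g (x k ^ n))‖ := by
        rw [add_comm]
        exact (Finset.sum_sdiff (Finset.subset_univ S)).symm
      have h2 : ∑ k ∈ Finset.univ \ S, Real.log ‖ι (g (x k ^ n))‖ = 0 := by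
        rw [← P.biUnion_parts, Finset.sum_biUnion P.supIndep.pairwiseDisjoint]
        refine Finset.sum_eq_zero fun B hB => ?_
        obtain ⟨i, j, hij, rfl, hj⟩ := hP B hB
        simp only [id_eq]
        rw [Finset.sum_pair hij, hj, map_inv₀, map_inv₀, norm_inv, Real.log_inv, add_neg_cancel]
      rw [h1, h2, add_zero]
      exact Finset.sum_coe_sort S (fun k => Real.log ‖ι (g (x k ^ n))‖))
  rw [Fintype.card_coe] at hcardS
  refine ⟨S, hcardS, P, fun B hB => ?_⟩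
  obtain ⟨k, k', hkk, rfl, hk'⟩ := hP B hB
  refine ⟨Finset.card_pair hkk, 2 * T * n, Nat.mul_pos (Nat.mul_pos two_pos hT) hn0, ?_⟩
  have hy0 : x k ^ n ≠ 0 := pow_ne_zero _ (H.ne_zero (hxA k))
  rw [Finset.prod_pair hkk, mul_pow, hμn, hμn, hk', ← map_mul]
  rw [show (q : Qb) ^ (T * n) * x k ^ n * ((q : Qb) ^ (T * n) * (x k ^ n)⁻¹) =
    ((q : Qb) ^ (T * n) * (q : Qb) ^ (T * n)) * (x k ^ n * (x k ^ n)⁻¹) by ring,
    mul_inv_cancel₀ hy0, mul_one, ← pow_add, map_pow, map_natCast]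
  congr 1
  ring

variable {V : κ → Type} [∀ k, AddCommGroup (V k)] [∀ k, Module Ω (V k)] [AddCommGroup M]
  [Module Ω M] [FiniteDimensional Ω M]

theorem prod_parts {R : Type*} [CommMonoid R] {S : Finset κ} (P : Finpartition (Finset.univ \ S))
    (h : κ → R) : (∏ B ∈ P.parts, ∏ k ∈ B, h k) * ∏ k ∈ S, h k = ∏ k, h k := by
  classical
  have h1 : ∏ k ∈ Finset.univ \ S, h k = ∏ B ∈ P.parts, ∏ k ∈ B, h k := by
    conv_lhs => rw [← P.biUnion_parts]
    rw [Finset.prod_biUnion P.supIndep.pairwiseDisjoint]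
    rfl
  rw [← h1]
  exact Finset.prod_sdiff (Finset.subset_univ S)

theorem prod_power {S : Finset κ} (P : Finpartition (Finset.univ \ S)) {μ : κ → Ω} {q : Ω}
    (hP : ∀ B ∈ P.parts, ∃ t : ℕ, 0 < t ∧ (∏ k ∈ B, μ k) ^ t = q ^ t) :
    ∃ t : ℕ, 0 < t ∧ (∏ B ∈ P.parts, ∏ k ∈ B, μ k) ^ t = (q ^ P.parts.card) ^ t := by
  classical
  choose! t ht h using hP
  refine ⟨∏ B ∈ P.parts, t B, Finset.prod_pos ht, ?_⟩
  rw [← Finset.prod_pow]
  have h1 : ∀ B ∈ P.parts, (∏ k ∈ B, μ k) ^ (∏ B ∈ P.parts, t B) = q ^ (∏ B ∈ P.parts, t B) := by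
    intro B hB
    rw [← Finset.mul_prod_erase _ _ hB, pow_mul, h B hB, ← pow_mul]
  rw [Finset.prod_congr rfl h1, Finset.prod_const, ← pow_mul, ← pow_mul, mul_comm]

/-- a product of linear forms in the variables in `S`, and a vector -/
def prodS (l : ∀ k, V k →ₗ[Ω] Ω) (y : M) (S : Finset κ) :
    MultilinearMap Ω (fun k : S => V k) M :=
  ((MultilinearMap.mkPiAlgebra Ω S Ω).compLinearMap (fun k => l k)).smulRight y

theorem prodS_apply (l : ∀ k, V k →ₗ[Ω] Ω) (y : M) (S : Finset κ) (v : ∀ k : S, V k) :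
    prodS l y S v = (∏ k : S, l k (v k)) • y := by
  simp [prodS]

theorem isProductOfPairs [FiniteDimensional ℚ F₀] {q T : ℕ} (hq : 0 < q) (hT : 0 < T)
    (H : EqualSlopes p F₀ (T * Real.log q) A) (τ : Qb →+* Ω)
    (F : ∀ k, V k →ₗ[Ω] V k) (G : M →ₗ[Ω] M) (w : ℝ)
    (hG : ∀ β : Ω, Module.End.HasEigenvalue G β → SlopesWithin p q w β)
    (l : ∀ k, V k →ₗ[Ω] Ω) (μ : κ → Ω) (y : M) (s : ℕ)
    (hl : ∀ k x, l k (F k x) = μ k * l k x)
    (hμ : ∀ k, ∃ x ∈ A, ∃ N : ℕ, 0 < N ∧ μ k ^ (2 * T * N) = ((q : Ω) ^ T * τ x) ^ N)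
    (hy : y ≠ 0) (hs : 0 < s) (hGy : (G ^ s) y = (∏ k, μ k) ^ s • y) :
    IsProductOfPairs q w F G (prodM l y) := by
  classical
  obtain ⟨β, hβ, hβs⟩ := exists_eigenvalue hs hy hGy
  obtain ⟨M₀, hM₀, Q, hQ, hβQ, hQs⟩ := hG β hβ
  obtain ⟨S, hS, P, hP⟩ := letters hq hT H τ hQ μ hμ hM₀ hβQ w hQs hs hβs
  refine ⟨S, hS, P, fun B => prodB l B, prodS l y S, ?_, ?_, ?_⟩
  · intro B hB
    obtain ⟨h1, t, ht, h3⟩ := hP B hB
    refine ⟨h1, t, ht, fun v => ?_⟩
    rw [prodB_apply, prodB_apply]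
    rw [Finset.prod_congr rfl fun k _ => eigenform_pow (hl k.1) t (v k), Finset.prod_mul_distrib,
      Finset.prod_pow, Finset.prod_coe_sort B μ, h3]
  · obtain ⟨t, ht, h1⟩ := prod_power P fun B hB => (hP B hB).2
    refine ⟨s * t, Nat.mul_pos hs ht, fun v => ?_⟩
    have h2 : (G ^ (s * t)) y = (∏ k, μ k) ^ (s * t) • y := by
      rw [pow_mul, eigenvector_pow hGy, ← pow_mul]
    have h3 : (∏ k, μ k) ^ (s * t) =
        ((q : Ω) ^ P.parts.card) ^ (s * t) * (∏ k ∈ S, μ k) ^ (s * t) := by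
      rw [← prod_parts P μ, mul_pow, mul_comm s t, pow_mul, h1, ← pow_mul]
    rw [prodS_apply, prodS_apply, map_smul, h2, h3]
    rw [Finset.prod_congr rfl fun k _ => eigenform_pow (hl k.1) (s * t) (v k),
      Finset.prod_mul_distrib, Finset.prod_pow, Finset.prod_coe_sort S μ, smul_smul, smul_smul]
    congr 1
    ring
  · intro v
    rw [prodM_apply, prodS_apply, smul_smul, ← prod_parts P (fun k => l k (v k))]
    congr 2
    · refine Finset.prod_congr rfl fun B _ => ?_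
      rw [prodB_apply]
      exact (Finset.prod_coe_sort B (fun k => l k (v k))).symm
    · exact (Finset.prod_coe_sort S (fun k => l k (v k))).symm

/-- **Tate maps are sums of products of two-variable forms and of Tate maps in few variables.** -/
theorem tate_pairs [FiniteDimensional ℚ F₀] [∀ k, FiniteDimensional Ω (V k)]
    {q T : ℕ} (hq : 0 < q) (hT : 0 < T)
    (H : EqualSlopes p F₀ (T * Real.log q) A) (τ : Qb →+* Ω)
    (F : ∀ k, V k →ₗ[Ω] V k)
    (hF : ∀ k, Submodule.span Ω {x : V k | ∃ μ : Ω, F k x = μ • x ∧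
      ∃ x ∈ A, ∃ N : ℕ, 0 < N ∧ μ ^ (2 * T * N) = ((q : Ω) ^ T * τ x) ^ N} = ⊤)
    (G : M →ₗ[Ω] M) (w : ℝ) (hG : ∀ β : Ω, Module.End.HasEigenvalue G β → SlopesWithin p q w β)
    (f : MultilinearMap Ω V M) (hf : KL.IsTateMap F G f) :
    f ∈ Submodule.span Ω {ψ | IsProductOfPairs q w F G ψ} := by
  refine Submodule.span_mono ?_ (expand F G (fun k μ =>
    ∃ x ∈ A, ∃ N : ℕ, 0 < N ∧ μ ^ (2 * T * N) = ((q : Ω) ^ T * τ x) ^ N)
    (fun k => hF k) f hf)
  rintro ψ ⟨l, μ, y, s, h1, h2, h3, h4, h5, rfl⟩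
  exact isProductOfPairs hq hT H τ F G w hG l μ y s h1 h2 h3 h4 h5

end

end Pool.Agent.KS6_5.KL
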