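import Mathlib

/-!
# Eigenvalues are determined by the traces of the powers
-/

set_option autoImplicit false

namespace Pool.Agent.KS6_5.KL

open Polynomial Module

variable {Ω V : Type} [Field Ω] [CharZero Ω] [AddCommGroup V] [Module Ω V]
  [FiniteDimensional Ω V]

theorem eigenvalue_of_powerSum (W : V →ₗ[Ω] V)
    (hW : Submodule.span Ω {x : V | ∃ μ : Ω, W x = μ • x} = ⊤) {I : Type} [Fintype I] (z : I → Ω)
    (h : ∀ m : ℕ, 0 < m → LinearMap.trace Ω V (W ^ m) = ∑ i, z i ^ m) {μ : Ω} (hμ : μ ≠ 0)
    {x : V} (hx : x ≠ 0) (hWx : W x = μ • x) : ∃ i, z i = μ := by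
  classical
  by_contra hcon
  push Not at hcon
  let b := Basis.ofSpan (K := Ω) (V := V) (le_of_eq hW.symm)
  have hb : ∀ j, ∃ ν : Ω, W (b j) = ν • b j := by
    intro j
    have h1 : b j ∈ {x : V | ∃ μ : Ω, W x = μ • x} :=
      Basis.ofSpan_subset (le_of_eq hW.symm) ⟨j, rfl⟩
    exact h1
  choose ν hν using hb
  have hfin := Module.Finite.finite_basis b
  have hft := Fintype.ofFinite ((linearIndepOn_empty Ω id).extend
    (Set.empty_subset {x : V | ∃ μ : Ω, W x = μ • x}))
  have hpow : ∀ (m : ℕ) j, (W ^ m) (b j) = ν j ^ m • b j := by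
    intro m j
    induction m with
    | zero => simp
    | succ m ih => rw [pow_succ', Module.End.mul_apply, ih, map_smul, hν, smul_smul, pow_succ]
  have htr : ∀ m : ℕ, LinearMap.trace Ω V (W ^ m) = ∑ j, ν j ^ m := by
    intro m
    rw [LinearMap.trace_eq_matrix_trace Ω b, Matrix.trace]
    refine Finset.sum_congr rfl fun j _ => ?_
    rw [Matrix.diag_apply, LinearMap.toMatrix_apply, hpow, map_smul, Finsupp.smul_apply,
      Basis.repr_self, Finsupp.single_eq_same, smul_eq_mul, mul_one]
  -- `μ` is one of the eigenvalues of the basis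
  obtain ⟨j₀, hj₀⟩ : ∃ j, ν j = μ := by
    obtain ⟨j, hj⟩ : ∃ j, b.repr x j ≠ 0 := by
      by_contra hc
      push Not at hc
      apply hx
      apply b.repr.injective
      ext j
      rw [hc j]
      simp
    refine ⟨j, ?_⟩
    have h1 : b.coord j (W x) = ν j * b.coord j x := by
      have h2 : (b.coord j).comp W = ν j • b.coord j := by
        refine b.ext fun i => ?_
        rw [LinearMap.comp_apply, hν, map_smul, LinearMap.smul_apply, Basis.coord_apply,
          Basis.repr_self]
        by_cases hjk : i = j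
        · subst hjk
          rfl
        · rw [Finsupp.single_eq_of_ne (Ne.symm hjk), smul_zero, smul_zero]
      exact LinearMap.congr_fun h2 x
    rw [hWx, map_smul, smul_eq_mul, Basis.coord_apply] at h1
    exact (mul_right_cancel₀ hj h1).symm
  -- polynomials
  have hpoly : ∀ P : Polynomial Ω, P.coeff 0 = 0 → ∑ j, P.eval (ν j) = ∑ i, P.eval (z i) := by
    intro P hP
    have h1 : ∀ y : Ω, P.eval y = ∑ m ∈ (Finset.range (P.natDegree + 1)).erase 0,
        P.coeff m * y ^ m := by
      intro y
      rw [eval_eq_sum_range, ← Finset.add_sum_erase _ _ (Finset.mem_range.2 (Nat.succ_pos _)),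
        hP, zero_mul, zero_add]
    simp only [h1]
    rw [Finset.sum_comm, Finset.sum_comm (s := (Finset.univ : Finset I))]
    refine Finset.sum_congr rfl fun m hm => ?_
    have hm0 : 0 < m := Nat.pos_of_ne_zero (Finset.ne_of_mem_erase hm)
    rw [← Finset.mul_sum, ← Finset.mul_sum, ← htr, h m hm0]
  let S : Finset Ω := ((Finset.univ.image ν) ∪ (Finset.univ.image z)).erase μ
  let P : Polynomial Ω := X * ∏ s ∈ S, (X - C s)
  have hP0 : P.coeff 0 = 0 := by
    simp [P]
  have hPμ : P.eval μ ≠ 0 := by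
    simp only [P, eval_mul, eval_X, eval_prod, eval_sub, eval_C]
    refine mul_ne_zero hμ (Finset.prod_ne_zero_iff.2 fun s hs => ?_)
    exact sub_ne_zero.2 (Finset.ne_of_mem_erase hs).symm
  have hPs : ∀ s ∈ S, P.eval s = 0 := by
    intro s hs
    simp only [P, eval_mul, eval_X, eval_prod, eval_sub, eval_C]
    rw [Finset.prod_eq_zero hs (sub_self s), mul_zero]
  have h1 := hpoly P hP0
  have h2 : ∑ i, P.eval (z i) = 0 := by
    refine Finset.sum_eq_zero fun i _ => hPs _ ?_
    refine Finset.mem_erase.2 ⟨hcon i, Finset.mem_union_right _ ?_⟩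
    exact Finset.mem_image_of_mem z (Finset.mem_univ i)
  have h3 : ∑ j, P.eval (ν j) = ((Finset.univ.filter fun j => ν j = μ).card : Ω) * P.eval μ := by
    rw [← nsmul_eq_mul, ← Finset.sum_const, Finset.sum_filter]
    refine Finset.sum_congr rfl fun j _ => ?_
    split_ifs with hj
    · rw [hj]
    · refine hPs _ (Finset.mem_erase.2 ⟨hj, Finset.mem_union_left _ ?_⟩)
      exact Finset.mem_image_of_mem ν (Finset.mem_univ j)
  rw [h2, h3] at h1
  rcases mul_eq_zero.1 h1 with h4 | h4
  · have h5 : (Finset.univ.filter fun j => ν j = μ).card = 0 := by exact_mod_cast h4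
    rw [Finset.card_eq_zero] at h5
    have h6 : j₀ ∈ Finset.univ.filter fun j => ν j = μ :=
      Finset.mem_filter.2 ⟨Finset.mem_univ _, hj₀⟩
    rw [h5] at h6
    simp at h6
  · exact hPμ h4

end Pool.Agent.KS6_5.KL
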