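import Pool.Agent.KS6_5.KL.Count
import Pool.Agent.KS6_5.KL.Pairs
import Pool.Agent.KS6_5.KL.PowerSum

/-!
# Tate classes on products of the curves `z ^ q₀ - z = a x + b / x + c`
-/

set_option autoImplicit false
set_option linter.unusedSectionVars false

namespace Pool.Agent.KS6_5.KL

open NumberField Polynomial IntermediateField Pool.Agent.TH121.KT Pool.Agent.KS6_5.SP

noncomputable section

variable {p : ℕ} [Fact p.Prime]

/-- the eigenvalues of the Frobenius on the first cohomology group -/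
theorem eigenvalues {e s a D T : ℕ} (ha : 0 < a) (he : 0 < e) (hD : D = a * T)
    (hT : 0 < T) (hsT : s ∣ T) (heD : e ∣ D) {F Ω V : Type} [Field F]
    (hF : Nat.card F = (p ^ a) ^ s) {A B C : F} (hA : A ≠ 0) (hB : B ≠ 0) [Field Ω] [CharZero Ω]
    [AddCommGroup V] [Module Ω V] [FiniteDimensional Ω V] (τ : Qb →+* Ω) {Φ : V →ₗ[Ω] V}
    (hΦ : IsFirstCohomology p e s A B C Φ) (L : Type) [Field L] [Fintype L] [DecidableEq L]
    [CharP L p] (hL : Fintype.card L = p ^ D) {μ : Ω} {x : V} (hx : x ≠ 0) (hμ : Φ x = μ • x) :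
    ∃ y ∈ anglesF L, μ ^ (2 * T * p) = (((p ^ a : ℕ) : Ω) ^ T * τ y) ^ p := by
  classical
  have hp : p.Prime := Fact.out
  have hpos : 0 < Nat.card F := by
    rw [hF]
    exact pow_pos (pow_pos hp.pos _) _
  have hFfin : Finite F := Nat.finite_of_card_ne_zero hpos.ne'
  have hFt : Fintype F := Fintype.ofFinite F
  have hFp : CharP F p := by
    obtain ⟨p', hp'⟩ := CharP.exists F
    obtain ⟨n, hp'', hn⟩ := FiniteField.card F p'
    have h1 : p' = p := by
      rw [← Nat.card_eq_fintype_card, hF, ← pow_mul] at hn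
      have h2 : p' ∣ p ^ (a * s) := by
        rw [hn]
        exact dvd_pow_self p' n.ne_zero
      exact (Nat.prime_dvd_prime_iff_eq hp'' hp).1 (hp''.dvd_of_dvd_pow h2)
    rwa [h1] at hp'
  have hD0 : 0 < D := by
    rw [hD]
    exact Nat.mul_pos ha hT
  -- algebra structures over the prime field
  let _ : Algebra (ZMod p) F := ZMod.algebra F p
  let _ : Algebra (ZMod p) L := ZMod.algebra L p
  have hfF : Module.finrank (ZMod p) F = a * s := by
    have h1 := FiniteField.pow_finrank_eq_natCard p F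
    rw [hF, ← pow_mul] at h1
    exact Nat.pow_right_injective hp.two_le h1
  have hfL : Module.finrank (ZMod p) L = D := by
    have h1 := FiniteField.pow_finrank_eq_card p L
    rw [hL] at h1
    exact Nat.pow_right_injective hp.two_le h1
  let k : Type := GaloisField p e
  have hfk : Module.finrank (ZMod p) k = e := GaloisField.finrank p he.ne'
  have _ : Finite k := inferInstanceAs (Finite (GaloisField p e))
  let _ : Fintype k := Fintype.ofFinite k
  have hck : Fintype.card k = p ^ e := by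
    rw [← Nat.card_eq_fintype_card]
    exact GaloisField.card p e he.ne'
  have _ : CharP k p := inferInstanceAs (CharP (GaloisField p e) p)
  obtain ⟨ψ, hψ⟩ := exists_char (p := p) k
  obtain ⟨jF⟩ := FiniteField.nonempty_algHom_of_finrank_dvd (F := ZMod p) (K := F) (L := L) (by
    rw [hfF, hfL, hD]
    exact Nat.mul_dvd_mul_left a hsT)
  obtain ⟨jk⟩ := FiniteField.nonempty_algHom_of_finrank_dvd (F := ZMod p) (K := k) (L := L) (by
    rw [hfk, hfL]
    exact heD)
  let _ : Algebra k L := jk.toRingHom.toAlgebra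
  have hA' : jF A ≠ 0 := (_root_.map_ne_zero jF).2 hA
  have hB' : jF B ≠ 0 := (_root_.map_ne_zero jF).2 hB
  obtain ⟨y, hy1, hy2⟩ := exists_numbers (p := p) (k := k) (L := L) hψ hA' hB' (jF C)
  -- the traces
  have htr : ∀ m : ℕ, 0 < m → LinearMap.trace Ω V ((Φ ^ T) ^ m) =
      ∑ i : {t : k // t ≠ 0} × Bool, (τ (y i.1.1 i.2)) ^ m := by
    intro m hm
    have hmz : NeZero m := ⟨hm.ne'⟩
    let E : Type := FiniteField.Extension L p m
    let _ : Fintype E := Fintype.ofFinite E
    have hLE : Module.finrank L E = m := FiniteField.finrank_extension L p m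
    let _ : Algebra k E := ((algebraMap L E).comp (algebraMap k L)).toAlgebra
    have _ : IsScalarTower k L E := IsScalarTower.of_algebraMap_eq fun x => rfl
    let _ : Algebra F E := ((algebraMap L E).comp jF.toRingHom).toAlgebra
    have hmapF : ∀ x : F, algebraMap F E x = algebraMap L E (jF x) := fun x => rfl
    have hcE : Nat.card E = p ^ (D * m) := by
      rw [FiniteField.natCard_extension, Nat.card_eq_fintype_card, hL, ← pow_mul]
    have hfFE : s * Module.finrank F E = T * m := by
      have _ : Module.Finite F E := Module.Finite.of_finite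
      have h1 := Module.natCard_eq_pow_finrank (K := F) (V := E)
      rw [hcE, hF, ← pow_mul, ← pow_mul] at h1
      have h2 := Nat.pow_right_injective hp.two_le h1
      have h3 : a * (s * Module.finrank F E) = a * (T * m) := by
        rw [hD] at h2
        linarith
      exact Nat.eq_of_mul_eq_mul_left ha h3
    have h1 := hΦ.trace E
    rw [hfFE] at h1
    rw [← pow_mul, h1]
    have h2 := hy2 E
    have h3 : Nat.card (curvePoints p e E A B C) = ((Finset.univ : Finset (E × E)).filter
        fun xz => xz.1 ≠ 0 ∧ xz.2 ^ Fintype.card k - xz.2 = algebraMap L E (jF A) * xz.1 +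
          algebraMap L E (jF B) * xz.1⁻¹ + algebraMap L E (jF C)).card := by
      rw [Nat.card_eq_card_toFinset]
      congr 1
      ext P
      rw [Set.mem_toFinset, Finset.mem_filter, hck]
      exact ⟨fun h => ⟨Finset.mem_univ _, h⟩, fun h => h.2⟩
    rw [h3]
    have h4 := congrArg τ h2
    rw [map_sub, map_sub, map_one, map_natCast, map_natCast, map_sum] at h4
    rw [Nat.card_eq_fintype_card]
    rw [show ∀ a b : Ω, a + 1 - (2 + b) = a - 1 - b by intros; ring]
    rw [h4, Fintype.sum_prod_type, hLE]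
    symm
    rw [← Finset.sum_subtype ((Finset.univ : Finset k).erase 0)
      (fun t => by simp) (fun t => ∑ i : Bool, (τ (y t i)) ^ m)]
    refine Finset.sum_congr rfl fun t _ => ?_
    rw [map_sum]
    refine Finset.sum_congr rfl fun i _ => ?_
    rw [map_pow]
  -- the eigenvalue
  have hμ0 : μ ≠ 0 := by
    rintro rfl
    rw [zero_smul] at hμ
    exact hx (hΦ.injective (by rw [hμ, map_zero]))
  have hss : Submodule.span Ω {x : V | ∃ ν : Ω, (Φ ^ T) x = ν • x} = ⊤ := by
    rw [eq_top_iff, ← hΦ.semisimple]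
    refine Submodule.span_mono ?_
    rintro z ⟨ν, hν⟩
    exact ⟨ν ^ T, eigenvector_pow hν T⟩
  obtain ⟨⟨t, i⟩, hi⟩ := eigenvalue_of_powerSum (Φ ^ T) hss
    (fun i : {t : k // t ≠ 0} × Bool => τ (y i.1.1 i.2)) htr (pow_ne_zero T hμ0) hx
    (eigenvector_pow hμ T)
  obtain ⟨z, hz, h1⟩ := hy1 t.1 t.2 i
  refine ⟨z, (mem_anglesF L).2 hz, ?_⟩
  have h2 := congrArg τ h1
  rw [map_pow, map_pow, map_pow, map_mul, map_natCast, hL] at h2
  simp only at hi
  rw [hi, ← pow_mul, ← pow_mul] at h2
  rw [show 2 * T * p = T * (2 * p) by ring, h2]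
  congr 2
  rw [hD, pow_mul, Nat.cast_pow, Nat.cast_pow]

variable {κ Ω M : Type} [Fintype κ] [DecidableEq κ] [Field Ω] [CharZero Ω] [IsAlgClosed Ω]
variable {V : κ → Type} [∀ k, AddCommGroup (V k)] [∀ k, Module Ω (V k)]
  [∀ k, FiniteDimensional Ω (V k)] [AddCommGroup M] [Module Ω M] [FiniteDimensional Ω M]

/-- **Main theorem.** -/
theorem tate_kloosterman (hp2 : p ≠ 2) {a : ℕ} (ha : 0 < a) (e s : κ → ℕ) (he : ∀ k, 0 < e k)
    (hs : ∀ k, 0 < s k) (F : κ → Type) [∀ k, Field (F k)]
    (hF : ∀ k, Nat.card (F k) = (p ^ a) ^ s k) (A B C : ∀ k, F k) (hA : ∀ k, A k ≠ 0)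
    (hB : ∀ k, B k ≠ 0) (Φ : ∀ k, V k →ₗ[Ω] V k)
    (hΦ : ∀ k, IsFirstCohomology p (e k) (s k) (A k) (B k) (C k) (Φ k))
    (G : M →ₗ[Ω] M) (w : ℝ)
    (hG : ∀ β : Ω, Module.End.HasEigenvalue G β → SlopesWithin p (p ^ a) w β)
    (f : MultilinearMap Ω V M) (hf : KL.IsTateMap Φ G f) :
    f ∈ Submodule.span Ω {ψ | IsProductOfPairs (p ^ a) w Φ G ψ} := by
  classical
  have hp : p.Prime := Fact.out
  let τ : Qb →+* Ω := (IsAlgClosed.lift : Qb →ₐ[ℚ] Ω).toRingHom
  set T : ℕ := ∏ k, (s k * e k) with hT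
  have hT0 : 0 < T := Finset.prod_pos fun k _ => Nat.mul_pos (hs k) (he k)
  have hD0 : 0 < a * T := Nat.mul_pos ha hT0
  have hdvd : ∀ k, s k * e k ∣ T := fun k => Finset.dvd_prod_of_mem _ (Finset.mem_univ k)
  let L : Type := GaloisField p (a * T)
  have _ : Finite L := inferInstanceAs (Finite (GaloisField p (a * T)))
  let _ : Fintype L := Fintype.ofFinite L
  have _ : CharP L p := inferInstanceAs (CharP (GaloisField p (a * T)) p)
  have hcL : Fintype.card L = p ^ (a * T) := by
    rw [← Nat.card_eq_fintype_card]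
    exact GaloisField.card p _ hD0.ne'
  obtain ⟨ζ, hζ⟩ := exists_zeta p
  have hfd : FiniteDimensional ℚ ℚ⟮ζ⟯ :=
    IntermediateField.adjoin.finiteDimensional (Algebra.IsIntegral.isIntegral ζ)
  have H := equalSlopes (L := L) hp2 hζ hD0 hcL
  have hlog : ((a * T : ℕ) : ℝ) * Real.log p = T * Real.log ((p ^ a : ℕ) : ℝ) := by
    rw [Nat.cast_pow, Real.log_pow]
    push_cast
    ring
  rw [hlog] at H
  refine tate_pairs (pow_pos hp.pos a) hT0 H τ Φ (fun k => ?_) G w hG f hf
  rw [eq_top_iff, ← (hΦ k).semisimple, Submodule.span_le]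
  rintro x ⟨μ, hμ⟩
  by_cases hx : x = 0
  · rw [hx]
    exact Submodule.zero_mem _
  · refine Submodule.subset_span ⟨μ, hμ, ?_⟩
    obtain ⟨y, hy, h⟩ := eigenvalues (p := p) (a := a) (D := a * T) (T := T) ha (he k) rfl hT0
      ((Dvd.intro _ rfl).trans (hdvd k))
      (((Dvd.intro_left _ rfl).trans (hdvd k)).trans (Dvd.intro_left _ rfl)) (hF k) (hA k) (hB k) τ
      (hΦ k) L hcL hx hμ
    exact ⟨y, hy, p, hp.pos, h⟩

/-- The first cohomology groups exist: their dimension is twice the genus. -/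
theorem exists_firstCohomology {e n : ℕ} (he : 0 < e) {F : Type} [Field F]
    (hF : Nat.card F = (p ^ e) ^ n) {A B : F} (hA : A ≠ 0) (hB : B ≠ 0) (C : F)
    (Ω : Type) [Field Ω] [CharZero Ω] [IsAlgClosed Ω] :
    ∃ (V : Type) (_ : AddCommGroup V) (_ : Module Ω V) (_ : FiniteDimensional Ω V)
      (Φ : V →ₗ[Ω] V), Module.finrank Ω V = 2 * (p ^ e - 1) ∧ IsFirstCohomology p e 1 A B C Φ := by
  classical
  have hp : p.Prime := Fact.out
  let τ : Qb →+* Ω := (IsAlgClosed.lift : Qb →ₐ[ℚ] Ω).toRingHom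
  have hpos : 0 < Nat.card F := by
    rw [hF]
    exact pow_pos (pow_pos hp.pos _) _
  have hFfin : Finite F := Nat.finite_of_card_ne_zero hpos.ne'
  let _ : Fintype F := Fintype.ofFinite F
  have hFp : CharP F p := by
    obtain ⟨p', hp'⟩ := CharP.exists F
    obtain ⟨n', hp'', hn⟩ := FiniteField.card F p'
    have h1 : p' = p := by
      rw [← Nat.card_eq_fintype_card, hF, ← pow_mul] at hn
      have h2 : p' ∣ p ^ (e * n) := by
        rw [hn]
        exact dvd_pow_self p' n'.ne_zero
      exact (Nat.prime_dvd_prime_iff_eq hp'' hp).1 (hp''.dvd_of_dvd_pow h2)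
    rwa [h1] at hp'
  let _ : Algebra (ZMod p) F := ZMod.algebra F p
  have hfF : Module.finrank (ZMod p) F = e * n := by
    have h1 := FiniteField.pow_finrank_eq_natCard p F
    rw [hF, ← pow_mul] at h1
    exact Nat.pow_right_injective hp.two_le h1
  let k : Type := GaloisField p e
  have hfk : Module.finrank (ZMod p) k = e := GaloisField.finrank p he.ne'
  have _ : Finite k := inferInstanceAs (Finite (GaloisField p e))
  let _ : Fintype k := Fintype.ofFinite k
  have hck : Fintype.card k = p ^ e := by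
    rw [← Nat.card_eq_fintype_card]
    exact GaloisField.card p e he.ne'
  have _ : CharP k p := inferInstanceAs (CharP (GaloisField p e) p)
  obtain ⟨ψ, hψ⟩ := exists_char (p := p) k
  obtain ⟨jk⟩ := FiniteField.nonempty_algHom_of_finrank_dvd (F := ZMod p) (K := k) (L := F) (by
    rw [hfk, hfF]
    exact Dvd.intro n rfl)
  let _ : Algebra k F := jk.toRingHom.toAlgebra
  obtain ⟨y, hy1, hy2⟩ := exists_numbers (p := p) (k := k) (L := F) hψ hA hB C
  let I : Type := {t : k // t ≠ 0} × Bool
  let d : I → Ω := fun i => τ (y i.1.1 i.2)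
  have hd : ∀ i, d i ≠ 0 := by
    intro i h0
    obtain ⟨x, ⟨χ, -, a, b, -, -, w, w', h1, h2, rfl⟩, hx⟩ := hy1 i.1.1 i.1.2 i.2
    have hq : (Fintype.card F : Qb) ≠ 0 := Nat.cast_ne_zero.2 Fintype.card_ne_zero
    have h3 : y i.1.1 i.2 = 0 := (map_eq_zero τ).1 h0
    rw [h3, zero_pow two_ne_zero, zero_pow hp.ne_zero] at hx
    have hww : w * w' ≠ 0 := by rw [h2]; exact hq
    exact pow_ne_zero p (mul_ne_zero hq (div_ne_zero (left_ne_zero_of_mul hww)
      (right_ne_zero_of_mul hww))) hx.symm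
  refine ⟨I → Ω, inferInstance, inferInstance, inferInstance, Matrix.toLin' (Matrix.diagonal d),
    ?_, ?_, ?_, ?_⟩
  · rw [Module.finrank_pi, Fintype.card_prod, Fintype.card_bool, Fintype.card_subtype_compl,
      Fintype.card_subtype_eq, hck, mul_comm]
  · intro v v' h
    funext i
    have h1 := congrFun h i
    simp only [Matrix.toLin'_apply, Matrix.mulVec_diagonal] at h1
    exact mul_left_cancel₀ (hd i) h1
  · rw [eq_top_iff]
    intro v _
    rw [← Finset.univ_sum_single v]
    refine Submodule.sum_mem _ fun i _ => Submodule.subset_span ⟨d i, ?_⟩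
    ext j
    simp only [Matrix.toLin'_apply, Matrix.mulVec_diagonal, Pi.smul_apply, smul_eq_mul]
    by_cases hij : j = i
    · subst hij
      rfl
    · rw [Pi.single_eq_of_ne hij, mul_zero, mul_zero]
  · intro E _ _ _
    let _ : Fintype E := Fintype.ofFinite E
    let _ : Algebra k E := ((algebraMap F E).comp (algebraMap k F)).toAlgebra
    have _ : IsScalarTower k F E := IsScalarTower.of_algebraMap_eq fun x => rfl
    have h2 := hy2 E
    have h3 : Nat.card (curvePoints p e E A B C) = ((Finset.univ : Finset (E × E)).filter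
        fun xz => xz.1 ≠ 0 ∧ xz.2 ^ Fintype.card k - xz.2 = algebraMap F E A * xz.1 +
          algebraMap F E B * xz.1⁻¹ + algebraMap F E C).card := by
      rw [Nat.card_eq_card_toFinset]
      congr 1
      ext P
      rw [Set.mem_toFinset, Finset.mem_filter, hck]
      exact ⟨fun h => ⟨Finset.mem_univ _, h⟩, fun h => h.2⟩
    rw [h3, one_mul]
    have h4 := congrArg τ h2
    rw [map_sub, map_sub, map_one, map_natCast, map_natCast, map_sum] at h4
    rw [Nat.card_eq_fintype_card]
    rw [show ∀ a b : Ω, a + 1 - (2 + b) = a - 1 - b by intros; ring]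
    rw [h4, ← Matrix.toLin'_pow, Matrix.trace_toLin'_eq, Matrix.diagonal_pow,
      Matrix.trace_diagonal, Fintype.sum_prod_type]
    change ∑ x : {t : k // t ≠ 0}, ∑ i : Bool, (τ (y x.1 i)) ^ Module.finrank F E = _
    rw [← Finset.sum_subtype ((Finset.univ : Finset k).erase 0)
      (fun t => by simp) (fun t => ∑ i : Bool, (τ (y t i)) ^ Module.finrank F E)]
    refine Finset.sum_congr rfl fun t _ => ?_
    rw [map_sum]
    refine Finset.sum_congr rfl fun i _ => ?_
    rw [map_pow]

end

end Pool.Agent.KS6_5.KL
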