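import Pool.Agent.KS6_5.KL.Arith

/-!
# The set of the numbers attached to Kloosterman sums
-/

set_option autoImplicit false
set_option linter.unusedSectionVars false

namespace Pool.Agent.KS6_5.KL

open NumberField Polynomial IntermediateField Pool.Agent.TH121.KT Pool.Agent.KS6_5.SP
open Pool.Agent.W902.TB

noncomputable section

variable {p : ℕ} [Fact p.Prime]

theorem exists_zeta (p : ℕ) [Fact p.Prime] : ∃ ζ : Qb, IsPrimitiveRoot ζ p := by
  have : NeZero p := ⟨(Fact.out : p.Prime).ne_zero⟩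
  have : NeZero (p : Qb) := ⟨Nat.cast_ne_zero.2 (Fact.out : p.Prime).ne_zero⟩
  exact HasEnoughRootsOfUnity.exists_primitiveRoot Qb p

/-- the cyclotomic field has only one place above `p` -/
theorem cyc_place {ζ : Qb} (hζ : IsPrimitiveRoot ζ p) (l l' : Qb →+* PadicAlgCl p) (z : Qb)
    (hz : z ∈ ℚ⟮ζ⟯) : ‖l z‖ = ‖l' z‖ := by
  have hne : NeZero p := ⟨(Fact.out : p.Prime).ne_zero⟩
  have hfd : FiniteDimensional ℚ ℚ⟮ζ⟯ :=
    IntermediateField.adjoin.finiteDimensional (Algebra.IsIntegral.isIntegral ζ)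
  have hnf : NumberField ℚ⟮ζ⟯ := ⟨⟩
  have hcyc : IsCyclotomicExtension {p} ℚ ℚ⟮ζ⟯ :=
    hζ.intermediateField_adjoin_isCyclotomicExtension ℚ
  let ζ' : ℚ⟮ζ⟯ := ⟨ζ, mem_adjoin_simple_self ℚ ζ⟩
  have hζ' : IsPrimitiveRoot ζ' p := by
    refine IsPrimitiveRoot.of_map_of_injective (f := algebraMap ℚ⟮ζ⟯ Qb) ?_
      (algebraMap ℚ⟮ζ⟯ Qb).injective
    exact hζ
  have hpr := hζ'.zeta_sub_one_prime'
  set π := hζ'.toInteger - 1 with hπ
  have hmem : ∀ e : ℚ⟮ζ⟯ →+* PadicAlgCl p, idl e = Ideal.span {π} := by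
    intro e
    have h1 : (Ideal.span {π}).IsPrime := (Ideal.span_singleton_prime hpr.ne_zero).2 hpr
    have h2 : (Ideal.span {π}).IsMaximal := h1.isMaximal (by
      rw [ne_eq, Ideal.span_singleton_eq_bot]
      exact hpr.ne_zero)
    refine (h2.eq_of_le (idl_prime e).ne_top ?_).symm
    rw [Ideal.span_singleton_le_iff_mem, mem_idl]
    have h3 : er e π = e ζ' - 1 := by
      simp only [er, RingHom.comp_apply, hπ, map_sub, map_one]
      rfl
    rw [h3]
    refine root_near _ ?_
    rw [← map_pow, hζ'.pow_eq_one, map_one]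
  let e : ℚ⟮ζ⟯ →+* PadicAlgCl p := l.comp (algebraMap ℚ⟮ζ⟯ Qb)
  let e' : ℚ⟮ζ⟯ →+* PadicAlgCl p := l'.comp (algebraMap ℚ⟮ζ⟯ Qb)
  exact norm_eq_of_ideal e e' ((hmem e).trans (hmem e').symm) ⟨z, hz⟩

variable (L : Type) [Field L] [Fintype L] [DecidableEq L]

/-- the quotients of the two numbers attached to the Kloosterman sums over `L` -/
def angles : Set Qb := {z | ∃ χ : AddChar L Qb, χ ≠ 1 ∧ ∃ a b : L, a ≠ 0 ∧ b ≠ 0 ∧
  ∃ w w' : Qb, w + w' = - klo χ a b ∧ w * w' = Fintype.card L ∧ z = w / w'}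

theorem finite_char : Finite (AddChar L Qb) := by
  classical
  let N := Fintype.card L
  have hN : 0 < N := Fintype.card_pos
  have hfin : Finite {z : Qb // z ^ N = 1} := by
    have h1 : {z : Qb | z ^ N = 1} ⊆ (X ^ N - 1 : Qb[X]).rootSet Qb := by
      intro z hz
      rw [mem_rootSet]
      refine ⟨X_pow_sub_C_ne_zero hN 1, ?_⟩
      simp only [map_sub, map_pow, aeval_X, map_one]
      rw [show z ^ N = 1 from hz, sub_self]
    exact (Set.Finite.subset (Polynomial.rootSet_finite _ _) h1)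
  refine Finite.of_injective (β := L → {z : Qb // z ^ N = 1})
    (fun χ x => ⟨χ x, by
      rw [← AddChar.map_nsmul_eq_pow, card_nsmul_eq_zero, AddChar.map_zero_eq_one]⟩) ?_
  intro χ χ' h
  ext x
  exact congrArg Subtype.val (congrFun h x)

theorem angles_finite : (angles L).Finite := by
  classical
  have hfc := finite_char L
  have h1 : angles L ⊆ ⋃ t : (AddChar L Qb) × L × L, (fun w => w ^ 2 / (Fintype.card L : Qb)) ''
      ((X ^ 2 + C (klo t.1 t.2.1 t.2.2) * X + C (Fintype.card L : Qb)).rootSet Qb) := by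
    rintro z ⟨χ, -, a, b, -, -, w, w', h1, h2, rfl⟩
    rw [Set.mem_iUnion]
    have hq : (Fintype.card L : Qb) ≠ 0 := Nat.cast_ne_zero.2 Fintype.card_ne_zero
    have hw : w ≠ 0 := by
      rintro rfl
      rw [zero_mul] at h2
      exact hq h2.symm
    have hw' : w' ≠ 0 := by
      rintro rfl
      rw [mul_zero] at h2
      exact hq h2.symm
    refine ⟨(χ, a, b), w, ?_, ?_⟩
    · rw [mem_rootSet]
      refine ⟨?_, ?_⟩
      · refine Monic.ne_zero ?_
        monicity!
      · simp only [map_add, map_mul, map_pow, aeval_X, aeval_C, Algebra.algebraMap_self,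
          RingHom.id_apply]
        rw [← h2, show klo χ a b = -(w + w') by rw [h1, neg_neg]]
        ring
    · simp only
      rw [← h2]
      field_simp
  exact Set.Finite.subset (Set.finite_iUnion fun t => (Polynomial.rootSet_finite _ _).image _) h1

/-- the set as a finite set -/
def anglesF : Finset Qb := (angles_finite L).toFinset

theorem mem_anglesF {z : Qb} : z ∈ anglesF L ↔ z ∈ angles L := (angles_finite L).mem_toFinset

variable {L} [CharP L p]

theorem comp_ne {R S : Type*} [CommRing R] [CommRing S] (φ : R →+* S)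
    (hφ : Function.Injective φ) {χ : AddChar L R} (h : χ ≠ 1) :
    (φ : R →* S).compAddChar χ ≠ 1 := by
  intro h1
  apply h
  ext x
  apply hφ
  have := DFunLike.congr_fun h1 x
  rw [AddChar.one_apply, map_one]
  exact this

/-- **The numbers attached to Kloosterman sums have equal slopes at one place.** -/
theorem equalSlopes (hp2 : p ≠ 2) {ζ : Qb} (hζ : IsPrimitiveRoot ζ p) {D : ℕ} (hD : 0 < D)
    (hcard : Fintype.card L = p ^ D) :
    EqualSlopes p ℚ⟮ζ⟯ (D * Real.log p) (anglesF L) := by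
  classical
  have hp : p.Prime := Fact.out
  have hne : NeZero p := ⟨hp.ne_zero⟩
  have hq : (Fintype.card L : Qb) ≠ 0 := Nat.cast_ne_zero.2 Fintype.card_ne_zero
  have hw0 : ∀ {w w' : Qb}, w * w' = Fintype.card L → w ≠ 0 ∧ w' ≠ 0 := by
    intro w w' h
    rw [← h] at hq
    exact ⟨left_ne_zero_of_mul hq, right_ne_zero_of_mul hq⟩
  -- norms of the two numbers
  have hle : ∀ {l : ℕ} [Fact l.Prime] (y : Qb →+* PadicAlgCl l) (χ : AddChar L Qb) (a b : L)
      (w w' : Qb), w + w' = - klo χ a b → w * w' = Fintype.card L → ‖y w‖ ≤ 1 := by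
    intro l _ y χ a b w w' h1 h2
    refine norm_le_of_quadratic (K := y (klo χ a b)) (q := (Fintype.card L : PadicAlgCl l)) ?_ ?_ ?_
    · rw [map_klo]
      exact klo_norm_le p _ a b
    · exact norm_le_one_of_isIntegral _ (by
        have h := isIntegral_algebraMap (R := ℤ) (A := PadicAlgCl l) (x := (Fintype.card L : ℤ))
        have h' : (algebraMap ℤ (PadicAlgCl l)) (Fintype.card L : ℤ) =
          (Fintype.card L : PadicAlgCl l) := map_natCast _ _
        rwa [h'] at h)
    · rw [← map_natCast y, ← map_pow, ← map_mul, ← map_add, ← map_add, ← h2,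
        show klo χ a b = -(w + w') by rw [h1, neg_neg]]
      rw [show w ^ 2 + -(w + w') * w + w * w' = 0 by ring, map_zero]
  refine ⟨?_, ?_, ?_, ?_, ?_, ?_, ?_⟩
  · -- stability
    intro h x hx
    rw [mem_anglesF] at hx ⊢
    obtain ⟨χ, hχ, a, b, ha, hb, w, w', h1, h2, rfl⟩ := hx
    refine ⟨((h : Qb →+* Qb) : Qb →* Qb).compAddChar χ, comp_ne (h : Qb →+* Qb)
      (RingHom.injective _) hχ, a, b, ha, hb, h w, h w', ?_, ?_, map_div₀ h w w'⟩
    · rw [← map_klo (h : Qb →+* Qb)]
      change h w + h w' = - h (klo χ a b)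
      rw [← map_add, h1, map_neg]
    · rw [← map_mul, h2, map_natCast]
  · -- complex absolute values
    intro x hx φ
    rw [mem_anglesF] at hx
    obtain ⟨χ, hχ, a, b, ha, hb, w, w', h1, h2, rfl⟩ := hx
    have h3 := norm_eq (p := p) hp2 (comp_ne φ φ.injective hχ) ha hb (w := φ w) (w' := φ w')
      (by rw [← map_klo, ← map_add, h1, map_neg]) (by rw [← map_mul, h2, map_natCast])
    rw [map_div₀, norm_div, h3, div_self]
    exact norm_ne_zero_iff.2 ((_root_.map_ne_zero φ).2 (hw0 h2).2)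
  · -- away from `p`
    intro x hx l _ hl y
    rw [mem_anglesF] at hx
    obtain ⟨χ, hχ, a, b, ha, hb, w, w', h1, h2, rfl⟩ := hx
    have h3 := hle y χ a b w w' h1 h2
    have h4 := hle y χ a b w' w (by rw [add_comm]; exact h1) (by rw [mul_comm]; exact h2)
    have h5 : ‖y w‖ * ‖y w'‖ = 1 := by
      rw [← norm_mul, ← map_mul, h2, map_natCast, hcard, Nat.cast_pow, norm_pow]
      have hp1 : ‖(p : PadicAlgCl l)‖ = 1 := by
        have h4 : (p : PadicAlgCl l) = algebraMap ℚ_[l] (PadicAlgCl l) (p : ℚ_[l]) := by simp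
        rw [h4, PadicAlgCl.norm_extends, Padic.norm_natCast_eq_one_iff]
        exact (Nat.coprime_primes (Fact.out : l.Prime) (Fact.out : p.Prime)).2 hl
      rw [hp1, one_pow]
    have h6 : ‖y w‖ = 1 := by nlinarith [norm_nonneg (y w), norm_nonneg (y w')]
    have h7 : ‖y w'‖ = 1 := by rw [h6, one_mul] at h5; exact h5
    rw [map_div₀, norm_div, h6, h7, div_one]
  · -- slopes
    intro x hx l
    rw [mem_anglesF] at hx
    obtain ⟨χ, hχ, a, b, ha, hb, w, w', h1, h2, rfl⟩ := hx
    have h3 := hle l χ a b w w' h1 h2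
    have h4 := hle l χ a b w' w (by rw [add_comm]; exact h1) (by rw [mul_comm]; exact h2)
    have hpn : ‖(p : PadicAlgCl p)‖ = (p : ℝ)⁻¹ := by
      have h4 : (p : PadicAlgCl p) = algebraMap ℚ_[p] (PadicAlgCl p) (p : ℚ_[p]) := by simp
      rw [h4, PadicAlgCl.norm_extends, Padic.norm_p]
    have h5 : ‖l w‖ * ‖l w'‖ = ((p : ℝ)⁻¹) ^ D := by
      rw [← norm_mul, ← map_mul, h2, map_natCast, hcard, Nat.cast_pow, norm_pow, hpn]
    have h6 : 1 ≤ max ‖l w‖ ‖l w'‖ := by
      have h7 : ‖l w + l w'‖ = 1 := by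
        rw [← map_add, h1, map_neg, norm_neg, map_klo]
        exact klo_norm _ a b
      rw [← h7]
      exact IsUltrametricDist.norm_add_le_max _ _
    have hlog : Real.log (((p : ℝ)⁻¹) ^ D) = - (D * Real.log p) := by
      rw [Real.log_pow, Real.log_inv]
      ring
    have hpos : 0 < D * Real.log p := mul_pos (Nat.cast_pos.2 hD)
      (Real.log_pos (by exact_mod_cast hp.one_lt))
    rw [map_div₀, norm_div]
    rcases le_max_iff.1 h6 with h7 | h7
    · have h8 : ‖l w‖ = 1 := le_antisymm h3 h7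
      rw [h8, one_mul] at h5
      rw [h8, h5, one_div, Real.log_inv, hlog, neg_neg, abs_of_pos hpos]
    · have h8 : ‖l w'‖ = 1 := le_antisymm h4 h7
      rw [h8, mul_one] at h5
      rw [h8, h5, div_one, hlog, abs_neg, abs_of_pos hpos]
  · exact mul_pos (Nat.cast_pos.2 hD) (Real.log_pos (by exact_mod_cast hp.one_lt))
  · -- signs
    intro h hh x hx
    rw [mem_anglesF] at hx
    obtain ⟨χ, hχ, a, b, ha, hb, w, w', h1, h2, rfl⟩ := hx
    have hfix : ∀ z : Qb, z ^ p = 1 → h z = z := by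
      intro z hz
      obtain ⟨i, -, rfl⟩ := hζ.eq_pow_of_pow_eq_one hz
      rw [map_pow, hh ζ (mem_adjoin_simple_self ℚ ζ)]
    have hklo : h (klo χ a b) = klo χ a b := by
      have h3 := map_klo (h : Qb →+* Qb) χ a b
      have h4 : ((h : Qb →+* Qb) : Qb →* Qb).compAddChar χ = χ := by
        ext x
        exact hfix _ (char_pow χ x)
      rw [h4] at h3
      exact h3
    have e1 : h w + h w' = w + w' := by rw [← map_add, h1, map_neg, hklo]
    have e2 : h w * h w' = w * w' := by rw [← map_mul, h2, map_natCast]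
    have e3 : (h w - w) * (h w - w') = 0 := by
      have h3 : h w * (w + w' - h w) = w * w' := by
        rw [← e1, ← e2]
        ring
      linear_combination -h3
    rcases mul_eq_zero.1 e3 with h3 | h3
    · left
      have h4 : h w = w := sub_eq_zero.1 h3
      rw [h4] at e1
      rw [map_div₀, h4, add_left_cancel e1]
    · right
      have h4 : h w = w' := sub_eq_zero.1 h3
      rw [h4, add_comm w w'] at e1
      rw [map_div₀, h4, add_left_cancel e1, inv_div]
  · intro l l' z hz
    exact cyc_place hζ l l' z hz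

end

end Pool.Agent.KS6_5.KL
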