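import Pool.Agent.KS6_5.SP.Core
import Pool.Agent.KS6_5.SP.Gal
import Pool.Graph.R_seed8.W517.K3.Part

/-!
# Numbers with equal slopes at one place
-/

set_option autoImplicit false
set_option linter.unusedSectionVars false

namespace Pool.Agent.KS6_5.KL

open NumberField Polynomial Pool.Agent.TH121.KT Pool.Agent.KS6_5.SP

noncomputable section

variable {p : ℕ} [Fact p.Prime]

/-- A finite set of Weil numbers of weight zero, stable under conjugation, all of whose slopes are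
`± lam`, on which the automorphisms over `F` act by signs, the field `F` having only one place
above `p`. -/
structure EqualSlopes (p : ℕ) [Fact p.Prime] (F : IntermediateField ℚ Qb) (lam : ℝ)
    (A : Finset Qb) : Prop where
  conj : ∀ (h : GQ), ∀ x ∈ A, h x ∈ A
  unitary : ∀ x ∈ A, ∀ φ : Qb →+* ℂ, ‖φ x‖ = 1
  away : ∀ x ∈ A, ∀ (l : ℕ) [Fact l.Prime], l ≠ p → ∀ y : Qb →+* PadicAlgCl l, ‖y x‖ = 1
  slope : ∀ x ∈ A, ∀ l : Qb →+* PadicAlgCl p, |Real.log ‖l x‖| = lam
  pos : 0 < lam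
  sign : ∀ h : GQ, (∀ z ∈ F, h z = z) → ∀ x ∈ A, h x = x ∨ h x = x⁻¹
  place : ∀ (l l' : Qb →+* PadicAlgCl p), ∀ z ∈ F, ‖l z‖ = ‖l' z‖

variable {F : IntermediateField ℚ Qb} {lam : ℝ} {A : Finset Qb}

theorem EqualSlopes.ne_zero (H : EqualSlopes p F lam A) {x : Qb} (hx : x ∈ A) : x ≠ 0 := by
  rintro rfl
  obtain ⟨φ⟩ : Nonempty (Qb →ₐ[ℚ] ℂ) := ⟨IsAlgClosed.lift⟩
  have := H.unitary 0 hx φ.toRingHom
  rw [map_zero, norm_zero] at this
  exact zero_ne_one this

/-- complex conjugation -/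
theorem EqualSlopes.exists_inv (H : EqualSlopes p F lam A) : ∃ k : GQ, ∀ x ∈ A, k x = x⁻¹ := by
  obtain ⟨φ₀⟩ : Nonempty (Qb →ₐ[ℚ] ℂ) := ⟨IsAlgClosed.lift⟩
  let φ : Qb →+* ℂ := φ₀.toRingHom
  obtain ⟨k, hk⟩ := exists_aut φ ((starRingEnd ℂ).comp φ)
  refine ⟨k, fun x hx => φ.injective ?_⟩
  rw [← hk, map_inv₀]
  have h1 := H.unitary x hx φ
  have h2 : φ x * (starRingEnd ℂ) (φ x) = 1 := by
    rw [Complex.mul_conj, Complex.normSq_eq_norm_sq, h1]
    simp
  exact eq_inv_of_mul_eq_one_right h2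

theorem EqualSlopes.inv_mem (H : EqualSlopes p F lam A) {x : Qb} (hx : x ∈ A) : x⁻¹ ∈ A := by
  obtain ⟨k, hk⟩ := H.exists_inv
  rw [← hk x hx]
  exact H.conj k x hx

/-- a uniform exponent -/
theorem EqualSlopes.exists_exponent (A : Finset Qb) : ∃ t : ℕ, 0 < t ∧ ∀ x ∈ A, ∀ y ∈ A,
    (∃ r : ℕ, 0 < r ∧ x ^ r = y ^ r) → x ^ t = y ^ t := by
  classical
  let r : Qb × Qb → ℕ := fun z => if h : ∃ r : ℕ, 0 < r ∧ z.1 ^ r = z.2 ^ r then h.choose else 1
  have hr : ∀ z, 0 < r z := by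
    intro z
    by_cases h : ∃ r : ℕ, 0 < r ∧ z.1 ^ r = z.2 ^ r
    · simp only [r, dif_pos h]
      exact h.choose_spec.1
    · simp only [r, dif_neg h]
      exact one_pos
  refine ⟨∏ z ∈ A ×ˢ A, r z, Finset.prod_pos fun z _ => hr z, ?_⟩
  intro x hx y hy h
  have h1 : x ^ r (x, y) = y ^ r (x, y) := by
    have h' : ∃ r : ℕ, 0 < r ∧ (x, y).1 ^ r = (x, y).2 ^ r := h
    simp only [r]
    rw [dif_pos h']
    exact h'.choose_spec.2
  have h2 : (x, y) ∈ A ×ˢ A := Finset.mk_mem_product hx hy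
  rw [← Finset.mul_prod_erase _ _ h2, pow_mul, pow_mul, h1]

/-- proportional slopes -/
theorem EqualSlopes.prop (H : EqualSlopes p F lam A) (ι : Qb →+* PadicAlgCl p) {x y : Qb}
    (hx : x ∈ A) (hy : y ∈ A) (c : ℝ)
    (hc : ∀ g : GQ, Real.log ‖ι (g y)‖ = c * Real.log ‖ι (g x)‖) :
    ∃ r : ℕ, 0 < r ∧ (y ^ r = x ^ r ∨ y ^ r = x⁻¹ ^ r) := by
  have hx0 := H.ne_zero hx
  have hy0 := H.ne_zero hy
  have h1 := H.slope x hx (ι.comp ((1 : GQ) : Qb →+* Qb))
  have h2 := H.slope y hy (ι.comp ((1 : GQ) : Qb →+* Qb))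
  have h3 := hc 1
  have hc1 : c = 1 ∨ c = -1 := by
    have h4 : |c| * lam = lam := by
      rw [← h1, ← abs_mul]
      conv_rhs => rw [h1, ← h2]
      congr 1
      exact h3.symm
    have h5 : |c| = 1 := by
      have := H.pos
      field_simp at h4
      exact h4
    rcases abs_cases c with ⟨h6, -⟩ | ⟨h6, -⟩
    · left; linarith
    · right; linarith
  have key : ∀ z ∈ A, (∀ g : GQ, Real.log ‖ι (g y)‖ = Real.log ‖ι (g z)‖) →
      ∃ r : ℕ, 0 < r ∧ y ^ r = z ^ r := by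
    intro z hz hg
    have hz0 := H.ne_zero hz
    obtain ⟨r, hr, h⟩ := torsion_of_norm (y / z) (fun l _ e => by
      by_cases hl : l = p
      · subst hl
        obtain ⟨k, hk⟩ := exists_aut ι e
        rw [hk, map_div₀, map_div₀, norm_div]
        have h4 : 0 < ‖ι (k y)‖ := norm_pos_iff.2 ((_root_.map_ne_zero _).2
          ((_root_.map_ne_zero _).2 hy0))
        have h5 : 0 < ‖ι (k z)‖ := norm_pos_iff.2 ((_root_.map_ne_zero _).2
          ((_root_.map_ne_zero _).2 hz0))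
        have h6 : ‖ι (k y)‖ = ‖ι (k z)‖ := Real.log_injOn_pos h4 h5 (hg k)
        rw [h6, div_self h5.ne']
      · rw [map_div₀, norm_div, H.away y hy l hl e, H.away z hz l hl e, div_one]) (fun φ => by
      rw [map_div₀, norm_div, H.unitary y hy φ, H.unitary z hz φ, div_one])
    refine ⟨r, hr, ?_⟩
    rwa [div_pow, div_eq_one_iff_eq (pow_ne_zero _ hz0)] at h
  rcases hc1 with rfl | rfl
  · obtain ⟨r, hr, h⟩ := key x hx (fun g => by rw [hc g, one_mul])
    exact ⟨r, hr, Or.inl h⟩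
  · obtain ⟨r, hr, h⟩ := key x⁻¹ (H.inv_mem hx) (fun g => by
      rw [hc g, map_inv₀, map_inv₀, norm_inv, Real.log_inv]
      ring)
    exact ⟨r, hr, Or.inr h⟩

/-- **Relations between numbers with equal slopes at one place are trivial.** -/
theorem EqualSlopes.balanced [FiniteDimensional ℚ F] (H : EqualSlopes p F lam A)
    (ι : Qb →+* PadicAlgCl p) {t n : ℕ}
    (ht : ∀ x ∈ A, ∀ y ∈ A, (∃ r : ℕ, 0 < r ∧ x ^ r = y ^ r) → x ^ t = y ^ t)
    (hn : 0 < n) (htn : t ∣ n) {κ : Type} [Fintype κ] (x : κ → Qb) (hx : ∀ k, x k ∈ A)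
    (f : GQ → ℝ) (c : ℝ) (hf : ∀ g, |f g - c| < n * lam)
    (hrel : ∀ g : GQ, ∑ k, Real.log ‖ι (g (x k ^ n))‖ = f g) (z : Qb) (hz : z ∈ A) :
    Nat.card {k // x k ^ n = z ^ n} = Nat.card {k // x k ^ n = (z ^ n)⁻¹} := by
  classical
  let X : Type := {y : Qb // y ∈ A.image (fun x => x ^ n)}
  let _ : Fintype X := Finset.Subtype.fintype (A.image (fun x => x ^ n))
  have hX : ∀ y : X, ∃ x ∈ A, x ^ n = y.1 := fun y => Finset.mem_image.1 y.2
  have hmk : ∀ x ∈ A, x ^ n ∈ A.image (fun x => x ^ n) := fun x hx =>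
    Finset.mem_image_of_mem (fun x => x ^ n) hx
  have hn' : (0 : ℝ) < n := Nat.cast_pos.2 hn
  have htn' : ∀ x ∈ A, ∀ y ∈ A, (∃ r : ℕ, 0 < r ∧ x ^ r = y ^ r) → x ^ n = y ^ n := by
    intro x hx y hy h
    obtain ⟨d, rfl⟩ := htn
    rw [pow_mul, pow_mul, ht x hx y hy h]
  let ac : GQ → X → X := fun g y => ⟨g y.1, by
    obtain ⟨x, hx, h⟩ := hX y
    rw [← h, map_pow]
    exact hmk _ (H.conj g x hx)⟩
  let bar : X → X := fun y => ⟨y.1⁻¹, by
    obtain ⟨x, hx, h⟩ := hX y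
    rw [← h, ← inv_pow]
    exact hmk _ (H.inv_mem hx)⟩
  let v : X → ℝ := fun y => Real.log ‖ι y.1‖
  have hbar : ∀ y : X, (bar y).1 = y.1⁻¹ := fun y => rfl
  have hac : ∀ (g : GQ) (y : X), (ac g y).1 = g y.1 := fun g y => rfl
  have hvX : ∀ (g : GQ) (y : X), |v (ac g y)| = n * lam := by
    intro g y
    obtain ⟨x, hx, h⟩ := hX y
    change |Real.log ‖ι (g y.1)‖| = _
    rw [← h, map_pow, map_pow, norm_pow, Real.log_pow, abs_mul, abs_of_pos hn']
    congr 1
    exact H.slope x hx (ι.comp (g : Qb →+* Qb))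
  have hvne : ∀ (g : GQ) (y : X), v (ac g y) ≠ 0 := by
    intro g y h0
    have h1 := hvX g y
    rw [h0, abs_zero] at h1
    have := mul_pos hn' H.pos
    linarith
  have hac1 : ∀ y : X, ac 1 y = y := fun y => Subtype.ext rfl
  have hv : ∀ y : X, v (bar y) = - v y := by
    intro y
    change Real.log ‖ι y.1⁻¹‖ = _
    rw [map_inv₀, norm_inv, Real.log_inv]
  let m : X → ℝ := fun y => ((Finset.univ.filter fun k => x k ^ n = y.1).card : ℝ)
  have hsum : ∀ g : GQ, ∑ y, m y * v (ac g y) = f g := by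
    intro g
    rw [← hrel g]
    have h1 : ∀ y : X, m y * v (ac g y) = ∑ k, if x k ^ n = y.1 then
        Real.log ‖ι (g (x k ^ n))‖ else 0 := by
      intro y
      rw [← Finset.sum_filter]
      rw [Finset.sum_congr rfl (g := fun _ => v (ac g y)) (fun k hk => by
        rw [(Finset.mem_filter.1 hk).2])]
      rw [Finset.sum_const, nsmul_eq_mul]
    rw [Finset.sum_congr rfl fun y _ => h1 y, Finset.sum_comm]
    refine Finset.sum_congr rfl fun k _ => ?_
    rw [Finset.sum_eq_single (⟨x k ^ n, hmk _ (hx k)⟩ : X)]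
    · rw [if_pos rfl]
    · intro y _ hy
      rw [if_neg]
      intro h
      exact hy (Subtype.ext h.symm)
    · intro h
      exact absurd (Finset.mem_univ _) h
  have hcore := core (G := GQ) (X := X) ac (fun g h y => rfl) bar {h | ∀ z ∈ F, h z = z}
    (fun g y => Subtype.ext (map_inv₀ g y.1))
    (fun h hh y => by
      obtain ⟨x, hx, he⟩ := hX y
      rcases H.sign h hh x hx with h1 | h1
      · left
        apply Subtype.ext
        rw [hac, ← he, map_pow, h1]
      · right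
        apply Subtype.ext
        rw [hac, hbar, ← he, map_pow, h1, inv_pow])
    v hv
    (fun y g g' _ _ => by
      obtain ⟨k, hk, hk'⟩ := places_conj ι F g g' (fun z hz =>
        H.place (ι.comp (g : Qb →+* Qb)) (ι.comp (g' : Qb →+* Qb)) z hz)
      refine ⟨k, hk, fun y => ?_⟩
      change Real.log ‖ι (g' y.1)‖ = Real.log ‖ι (g (k y.1))‖
      rw [hk'])
    (by
      intro y y' c hc0 hc
      obtain ⟨x, hx, he⟩ := hX y
      obtain ⟨x', hx', he'⟩ := hX y'
      obtain ⟨r, hr, h⟩ := H.prop ι hx hx' c (fun g => by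
        have h1 := hc g
        change Real.log ‖ι (g y'.1)‖ = c * Real.log ‖ι (g y.1)‖ at h1
        rw [← he, ← he', map_pow, map_pow, map_pow, map_pow, norm_pow, norm_pow, Real.log_pow,
          Real.log_pow] at h1
        have h2 : (n : ℝ) * (Real.log ‖ι (g x')‖ - c * Real.log ‖ι (g x)‖) = 0 := by
          linarith
        have h3 := (mul_eq_zero.1 h2).resolve_left hn'.ne'
        linarith)
      rcases h with h | h
      · left
        apply Subtype.ext
        rw [← he, ← he']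
        exact htn' x' hx' x hx ⟨r, hr, h⟩
      · right
        apply Subtype.ext
        rw [hbar, ← he, ← he', ← inv_pow]
        exact htn' x' hx' x⁻¹ (H.inv_mem hx) ⟨r, hr, h⟩)
    (fun y => Subtype.ext (inv_inv y.1))
    (fun y h => by
      have h1 := hv y
      rw [h] at h1
      have h2 := hvne 1 y
      rw [hac1] at h2
      exact h2 (by linarith))
    (fun y => ⟨1, hvne 1 y⟩)
    (fun y => by
      obtain ⟨k, hk⟩ := H.exists_inv
      refine ⟨k, Subtype.ext ?_⟩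
      obtain ⟨x, hx, he⟩ := hX y
      rw [hac, hbar, ← he, map_pow, hk x hx, inv_pow])
    m f hsum ⟨z ^ n, hmk z hz⟩ (Or.inr ⟨1, c, fun g g' _ => by
      rw [hvX, one_mul]
      exact hf g, (Finset.univ.filter fun k => x k ^ n = z ^ n).card -
        (Finset.univ.filter fun k => x k ^ n = (z ^ n)⁻¹).card, by
      simp only [m, hbar]
      push_cast
      ring⟩)
  simp only [m, hbar] at hcore
  rw [Nat.card_eq_fintype_card, Nat.card_eq_fintype_card, Fintype.card_subtype,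
    Fintype.card_subtype]
  exact_mod_cast hcore

end

end Pool.Agent.KS6_5.KL
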