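import Pool.Agent.KS6_5.KL.Two
import Pool.Agent.KS6_5.KL.Equal
import Pool.Agent.KS6_5.SP.Place

/-!
# The numbers attached to Kloosterman sums have equal slopes at one place
-/

set_option autoImplicit false
set_option linter.unusedSectionVars false

namespace Pool.Agent.KS6_5.KL

open NumberField Polynomial Pool.Agent.TH121.KT Pool.Agent.KS6_5.SP

noncomputable section

variable {p : ℕ} [Fact p.Prime]

section adic

theorem one_le_p : 0 < p := (Fact.out : p.Prime).pos

/-- a `p`-th root of unity is congruent to one -/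
theorem root_near (z : PadicAlgCl p) (hz : z ^ p = 1) : ‖z - 1‖ < 1 := by
  have hp : p.Prime := Fact.out
  have hz1 : IsIntegral ℤ z := by
    refine ⟨X ^ p - 1, ?_, ?_⟩
    · exact monic_X_pow_sub_C (1 : ℤ) hp.ne_zero
    · simp [hz]
  have hu : IsIntegral ℤ (z - 1) := hz1.sub isIntegral_one
  have h1 := add_pow_prime_eq hp (z - 1) 1
  rw [sub_add_cancel, hz, one_pow] at h1
  set S := ∑ k ∈ Finset.Ioo 0 p, (z - 1) ^ (k - 1) * 1 ^ (p - k - 1) * ((p.choose k / p : ℕ) :
    PadicAlgCl p) with hS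
  have hSi : IsIntegral ℤ S := by
    rw [hS]
    refine IsIntegral.sum _ fun k _ => ?_
    rw [one_pow, mul_one]
    refine (hu.pow _).mul ?_
    have h := isIntegral_algebraMap (R := ℤ) (A := PadicAlgCl p) (x := ((p.choose k / p : ℕ) : ℤ))
    have h' : (algebraMap ℤ (PadicAlgCl p)) ((p.choose k / p : ℕ) : ℤ) =
        ((p.choose k / p : ℕ) : PadicAlgCl p) := map_natCast _ _
    rwa [h'] at h
  have h2 : (z - 1) ^ p = - ((p : PadicAlgCl p) * ((z - 1) * 1 * S)) := by
    linear_combination -h1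
  have h3 : ‖z - 1‖ ^ p < 1 := by
    rw [← norm_pow, h2, norm_neg, norm_mul]
    have h4 : ‖(z - 1) * 1 * S‖ ≤ 1 :=
      Pool.Agent.W902.TB.norm_le_one_of_isIntegral _ ((hu.mul isIntegral_one).mul hSi)
    have h5 := Pool.Agent.W902.TB.norm_p (p := p)
    calc ‖(p : PadicAlgCl p)‖ * ‖(z - 1) * 1 * S‖ ≤ ‖(p : PadicAlgCl p)‖ * 1 :=
          mul_le_mul_of_nonneg_left h4 (norm_nonneg _)
      _ < 1 := by rw [mul_one]; exact h5
  by_contra h
  push Not at h
  have := one_le_pow₀ h (n := p)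
  linarith

theorem norm_sum_lt_one {l : ℕ} [Fact l.Prime] {ι : Type*} (s : Finset ι) (f : ι → PadicAlgCl l)
    (h : ∀ i ∈ s, ‖f i‖ < 1) : ‖∑ i ∈ s, f i‖ < 1 := by
  classical
  induction s using Finset.induction_on with
  | empty => simp
  | insert i s hi ih =>
    rw [Finset.sum_insert hi]
    refine lt_of_le_of_lt (IsUltrametricDist.norm_add_le_max _ _) (max_lt ?_ ?_)
    · exact h i (Finset.mem_insert_self i s)
    · exact ih fun j hj => h j (Finset.mem_insert_of_mem hj)

theorem norm_sum_le_one {l : ℕ} [Fact l.Prime] {ι : Type*} (s : Finset ι) (f : ι → PadicAlgCl l)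
    (h : ∀ i ∈ s, ‖f i‖ ≤ 1) : ‖∑ i ∈ s, f i‖ ≤ 1 := by
  classical
  induction s using Finset.induction_on with
  | empty => simp
  | insert i s hi ih =>
    rw [Finset.sum_insert hi]
    refine (IsUltrametricDist.norm_add_le_max _ _).trans (max_le ?_ ?_)
    · exact h i (Finset.mem_insert_self i s)
    · exact ih fun j hj => h j (Finset.mem_insert_of_mem hj)

/-- roots of a quadratic equation with integral coefficients -/
theorem norm_le_of_quadratic {l : ℕ} [Fact l.Prime] {w K q : PadicAlgCl l} (hK : ‖K‖ ≤ 1)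
    (hq : ‖q‖ ≤ 1) (h : w ^ 2 + K * w + q = 0) : ‖w‖ ≤ 1 := by
  by_contra hw
  push Not at hw
  have h1 : w ^ 2 = -(K * w + q) := by linear_combination h
  have h2 : ‖w‖ ^ 2 ≤ max (‖K‖ * ‖w‖) ‖q‖ := by
    rw [← norm_pow, h1, norm_neg, ← norm_mul]
    exact IsUltrametricDist.norm_add_le_max _ _
  have h3 : max (‖K‖ * ‖w‖) ‖q‖ ≤ ‖w‖ := by
    refine max_le ?_ ?_
    · nlinarith [norm_nonneg w]
    · linarith
  nlinarith

end adic

section klo

variable {L : Type} [Field L] [Fintype L] [DecidableEq L] [CharP L p]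

theorem char_pow {R : Type*} [CommRing R] (χ : AddChar L R) (x : L) : χ x ^ p = 1 := by
  rw [← AddChar.map_nsmul_eq_pow, nsmul_eq_mul, CharP.cast_eq_zero, zero_mul,
    AddChar.map_zero_eq_one]

theorem norm_root_one {l : ℕ} [Fact l.Prime] {z : PadicAlgCl l} {n : ℕ} (hn : 0 < n)
    (hz : z ^ n = 1) : ‖z‖ = 1 := by
  have h1 : ‖z‖ ^ n = 1 := by rw [← norm_pow, hz, norm_one]
  exact (pow_eq_one_iff_of_nonneg (norm_nonneg z) hn.ne').1 h1

theorem klo_norm_le (p : ℕ) [Fact p.Prime] [CharP L p] {l : ℕ} [Fact l.Prime]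
    (χ : AddChar L (PadicAlgCl l)) (a b : L) : ‖klo χ a b‖ ≤ 1 := by
  have hp : p.Prime := Fact.out
  unfold klo
  refine norm_sum_le_one _ _ fun x _ => ?_
  split_ifs
  · simp
  · exact (norm_root_one hp.pos (char_pow (p := p) χ _)).le

/-- the Kloosterman sum is congruent to `- 1` -/
theorem klo_norm (χ : AddChar L (PadicAlgCl p)) (a b : L) : ‖klo χ a b‖ = 1 := by
  classical
  have hp : p.Prime := Fact.out
  have h1 : klo χ a b = (∑ x : L, if x = 0 then 0 else (χ (a * x + b * x⁻¹) - 1)) +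
      (∑ x : L, if x = 0 then (0 : PadicAlgCl p) else 1) := by
    rw [← Finset.sum_add_distrib]
    unfold klo
    refine Finset.sum_congr rfl fun x _ => ?_
    split_ifs
    · rw [add_zero]
    · rw [sub_add_cancel]
  have h2 : (∑ x : L, if x = 0 then (0 : PadicAlgCl p) else 1) = (Fintype.card L : PadicAlgCl p) -
      1 := by
    have h3 : ∀ x : L, (if x = 0 then (0 : PadicAlgCl p) else 1) = 1 - (if x = 0 then 1 else 0) := by
      intro x
      split_ifs <;> simp
    rw [Finset.sum_congr rfl fun x _ => h3 x, Finset.sum_sub_distrib, Finset.sum_ite_eq'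
      Finset.univ, if_pos (Finset.mem_univ _), Finset.sum_const, Finset.card_univ, nsmul_eq_mul,
      mul_one]
  have h3 : ‖(Fintype.card L : PadicAlgCl p)‖ < 1 := by
    obtain ⟨n, -, hn⟩ := FiniteField.card L p
    rw [hn, Nat.cast_pow, norm_pow]
    exact pow_lt_one₀ (norm_nonneg _) Pool.Agent.W902.TB.norm_p n.ne_zero
  have h4 : ‖klo χ a b + 1‖ < 1 := by
    rw [h1, h2, add_assoc, sub_add_cancel]
    refine lt_of_le_of_lt (IsUltrametricDist.norm_add_le_max _ _) (max_lt ?_ h3)
    refine norm_sum_lt_one _ _ fun x _ => ?_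
    split_ifs
    · simp
    · exact root_near _ (char_pow χ _)
  have h5 : ‖(klo χ a b + 1) + (-1)‖ = max ‖klo χ a b + 1‖ ‖(-1 : PadicAlgCl p)‖ := by
    refine IsUltrametricDist.norm_add_eq_max_of_norm_ne_norm ?_
    rw [norm_neg, norm_one]
    exact h4.ne
  rw [add_neg_cancel_right, norm_neg, norm_one, max_eq_right h4.le] at h5
  exact h5

theorem klo_real (χ : AddChar L ℂ) (a b : L) :
    (starRingEnd ℂ) (klo χ a b) = klo χ a b := by
  unfold klo
  rw [map_sum]
  refine Fintype.sum_equiv (Equiv.neg L) _ _ fun x => ?_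
  simp only [Equiv.neg_apply, neg_eq_zero]
  split_ifs
  · exact map_zero _
  · rw [← AddChar.map_neg_eq_conj]
    congr 1
    rw [inv_neg]
    ring

/-- the two numbers attached to a Kloosterman sum have the same complex absolute value -/
theorem norm_eq (hp2 : p ≠ 2) {χ : AddChar L ℂ} (hχ : χ ≠ 1) {a b : L} (ha : a ≠ 0) (hb : b ≠ 0)
    {w w' : ℂ} (h1 : w + w' = - klo χ a b) (h2 : w * w' = Fintype.card L) : ‖w‖ = ‖w'‖ := by
  have hL : ringChar L ≠ 2 := by rw [ringChar.eq L p]; exact hp2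
  have hW := Pool.Agent.H498R2.Kl.kloosterman_le hL (AddChar.IsPrimitive.of_ne_one hχ) ha hb
  change ‖klo χ a b‖ ≤ _ at hW
  have hr := klo_real χ a b
  set K := klo χ a b with hK
  obtain ⟨k, hk⟩ : ∃ k : ℝ, K = k := ⟨K.re, (Complex.conj_eq_iff_re.1 hr).symm⟩
  have hk2 : k ^ 2 ≤ 4 * Fintype.card L := by
    rw [hk, Complex.norm_real, Real.norm_eq_abs] at hW
    have h3 : |k| ^ 2 ≤ (2 * Real.sqrt (Fintype.card L)) ^ 2 :=
      pow_le_pow_left₀ (abs_nonneg k) hW 2
    rw [sq_abs, mul_pow, Real.sq_sqrt (Nat.cast_nonneg _)] at h3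
    linarith
  -- the conjugate of `w` is `w` or `w'`
  have hc1 : (starRingEnd ℂ) w + (starRingEnd ℂ) w' = w + w' := by
    rw [← map_add, h1, map_neg, hr]
  have hc2 : (starRingEnd ℂ) w * (starRingEnd ℂ) w' = w * w' := by
    rw [← map_mul, h2, map_natCast]
  have hc : ((starRingEnd ℂ) w - w) * ((starRingEnd ℂ) w - w') = 0 := by
    have h3 : (starRingEnd ℂ) w * (w + w' - (starRingEnd ℂ) w) = w * w' := by
      rw [← hc1, ← hc2]
      ring
    linear_combination -h3
  rcases mul_eq_zero.1 hc with h3 | h3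
  · -- real
    have hw : (starRingEnd ℂ) w = w := sub_eq_zero.1 h3
    have hw' : (starRingEnd ℂ) w' = w' := by
      rw [hw] at hc1
      exact add_left_cancel hc1
    obtain ⟨u, hu⟩ : ∃ u : ℝ, w = u := ⟨w.re, (Complex.conj_eq_iff_re.1 hw).symm⟩
    obtain ⟨u', hu'⟩ : ∃ u : ℝ, w' = u := ⟨w'.re, (Complex.conj_eq_iff_re.1 hw').symm⟩
    have e1 : u + u' = - k := by
      rw [hu, hu', hk] at h1
      exact_mod_cast h1
    have e2 : u * u' = Fintype.card L := by
      rw [hu, hu'] at h2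
      exact_mod_cast h2
    have e3 : (u - u') ^ 2 ≤ 0 := by
      have : (u - u') ^ 2 = k ^ 2 - 4 * Fintype.card L := by
        rw [← e2]
        have : k = -(u + u') := by linarith
        rw [this]
        ring
      linarith
    have e4 : u = u' := by
      have h5 : (u - u') ^ 2 = 0 := le_antisymm e3 (sq_nonneg _)
      have := pow_eq_zero_iff (two_ne_zero) |>.1 h5
      linarith
    rw [hu, hu', e4]
  · have hw : (starRingEnd ℂ) w = w' := sub_eq_zero.1 h3
    rw [← hw, Complex.norm_conj]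

end klo

end

end Pool.Agent.KS6_5.KL
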