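import Pool.Agent.KS6_5.KL.Angles

/-!
# The number of points on the curves `z ^ q₀ - z = a x + b / x + c`
-/

set_option autoImplicit false
set_option linter.unusedSectionVars false

namespace Pool.Agent.KS6_5.KL

open NumberField Polynomial IntermediateField Pool.Agent.TH121.KT Pool.Agent.KS6_5.SP

noncomputable section

variable {p : ℕ} [Fact p.Prime]

/-- a nontrivial additive character with algebraic values -/
theorem exists_char (K : Type) [Field K] [Finite K] [CharP K p] : ∃ ψ : AddChar K Qb, ψ ≠ 1 := by
  have hp : p.Prime := Fact.out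
  have hne : NeZero p := ⟨hp.ne_zero⟩
  obtain ⟨ζ, hζ⟩ := exists_zeta p
  let _ : Algebra (ZMod p) K := ZMod.algebra K p
  have hfin : Module.Finite (ZMod p) K := Module.Finite.of_finite
  refine ⟨(AddChar.zmodChar p hζ.pow_eq_one).compAddMonoidHom
    (Algebra.trace (ZMod p) K).toAddMonoidHom, ?_⟩
  intro h
  obtain ⟨x, hx⟩ := Algebra.trace_surjective (ZMod p) K 1
  have h1 := DFunLike.congr_fun h x
  rw [AddChar.compAddMonoidHom_apply, AddChar.one_apply] at h1
  change AddChar.zmodChar p hζ.pow_eq_one (Algebra.trace (ZMod p) K x) = 1 at h1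
  rw [hx, AddChar.zmodChar_apply, ZMod.val_one, pow_one] at h1
  exact hζ.ne_one hp.one_lt h1

variable {k L E : Type} [Field k] [Fintype k] [Field L] [Fintype L] [DecidableEq L]
  [Field E] [Fintype E] [DecidableEq E]
  [Algebra k L] [Algebra L E] [Algebra k E] [IsScalarTower k L E]

/-- the number of points in terms of characters -/
theorem count_eq [DecidableEq k] {ψ : AddChar k Qb} (hψ : ψ ≠ 1) (A B C : L) :
    (((Finset.univ : Finset (E × E)).filter fun xz => xz.1 ≠ 0 ∧
      xz.2 ^ Fintype.card k - xz.2 = algebraMap L E A * xz.1 + algebraMap L E B * xz.1⁻¹ +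
        algebraMap L E C).card : Qb) =
    ((Fintype.card E : Qb) - 1) + ∑ t ∈ (Finset.univ : Finset k).erase 0,
      ((ψ.mulShift t).compAddMonoidHom (Algebra.trace k L).toAddMonoidHom) C ^
        (Module.finrank L E) *
      klo (((ψ.mulShift t).compAddMonoidHom (Algebra.trace k L).toAddMonoidHom).compAddMonoidHom
        (Algebra.trace L E).toAddMonoidHom) (algebraMap L E A) (algebraMap L E B) := by
  classical
  set g : E → E := fun x => algebraMap L E A * x + algebraMap L E B * x⁻¹ + algebraMap L E C
    with hg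
  have h1 : (((Finset.univ : Finset (E × E)).filter fun xz => xz.1 ≠ 0 ∧
      xz.2 ^ Fintype.card k - xz.2 = g xz.1).card : Qb) =
      ∑ x : E, if x = 0 then 0 else
        (((Finset.univ : Finset E).filter fun z => z ^ Fintype.card k - z = g x).card : Qb) := by
    rw [Finset.card_filter, Nat.cast_sum, Fintype.sum_prod_type]
    refine Finset.sum_congr rfl fun x _ => ?_
    by_cases hx : x = 0
    · rw [if_pos hx]
      refine Finset.sum_eq_zero fun z _ => ?_
      rw [if_neg (fun h => h.1 hx), Nat.cast_zero]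
    · rw [if_neg hx, Finset.card_filter, Nat.cast_sum]
      refine Finset.sum_congr rfl fun z _ => ?_
      congr 1
      by_cases h : z ^ Fintype.card k - z = g x
      · rw [if_pos ⟨hx, h⟩, if_pos h]
      · rw [if_neg (fun h' => h h'.2), if_neg h]
  have hprim := AddChar.IsPrimitive.of_ne_one hψ
  have h2 : ∀ y : E, (((Finset.univ : Finset E).filter fun z => z ^ Fintype.card k - z = y).card :
      Qb) = ∑ t : k, ψ (t * Algebra.trace k E y) := by
    intro y
    rw [AddChar.sum_mulShift _ hprim, Pool.Agent.H498R2.Kl.hilbert90]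
  have h3 : ∀ (t : k) (y : E), ψ (t * Algebra.trace k E y) =
      ((ψ.mulShift t).compAddMonoidHom (Algebra.trace k L).toAddMonoidHom)
        (Algebra.trace L E y) := by
    intro t y
    rw [AddChar.compAddMonoidHom_apply]
    change _ = ψ.mulShift t (Algebra.trace k L (Algebra.trace L E y))
    rw [Algebra.trace_trace, AddChar.mulShift_apply]
  rw [h1]
  have h4 : ∀ x : E, (if x = 0 then (0 : Qb) else
        (((Finset.univ : Finset E).filter fun z => z ^ Fintype.card k - z = g x).card : Qb)) =
      ∑ t : k, if x = 0 then (0 : Qb) else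
        ((ψ.mulShift t).compAddMonoidHom (Algebra.trace k L).toAddMonoidHom)
        (Algebra.trace L E (g x)) := by
    intro x
    split_ifs with hx
    · simp
    · rw [h2]
      exact Finset.sum_congr rfl fun t _ => h3 t _
  rw [Finset.sum_congr rfl fun x _ => h4 x, Finset.sum_comm,
    ← Finset.add_sum_erase Finset.univ _ (Finset.mem_univ (0 : k))]
  congr 1
  · -- the trivial character
    have h5 : ∀ x : E, (if x = 0 then (0 : Qb) else
        ((ψ.mulShift (0 : k)).compAddMonoidHom (Algebra.trace k L).toAddMonoidHom)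
        (Algebra.trace L E (g x))) = 1 - (if x = 0 then 1 else 0) := by
      intro x
      rw [AddChar.compAddMonoidHom_apply, AddChar.mulShift_apply, zero_mul,
        AddChar.map_zero_eq_one]
      split_ifs <;> simp
    rw [Finset.sum_congr rfl fun x _ => h5 x, Finset.sum_sub_distrib, Finset.sum_ite_eq'
      Finset.univ, if_pos (Finset.mem_univ _), Finset.sum_const, Finset.card_univ, nsmul_eq_mul,
      mul_one]
  · refine Finset.sum_congr rfl fun t _ => ?_
    unfold klo
    rw [Finset.mul_sum]
    refine Finset.sum_congr rfl fun x _ => ?_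
    split_ifs with hx
    · rw [mul_zero]
    · have h6 : Algebra.trace L E (g x) = Module.finrank L E • C +
          Algebra.trace L E (algebraMap L E A * x + algebraMap L E B * x⁻¹) := by
        simp only [hg]
        rw [map_add, Algebra.trace_algebraMap, add_comm]
      rw [h6, AddChar.map_add_eq_mul, AddChar.map_nsmul_eq_pow]
      rfl

/-- **The number of points** in terms of the numbers attached to Kloosterman sums. -/
theorem exists_numbers [CharP L p] [DecidableEq k] {ψ : AddChar k Qb} (hψ : ψ ≠ 1) {A B : L} (hA : A ≠ 0)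
    (hB : B ≠ 0) (C : L) : ∃ (y : k → Bool → Qb),
    (∀ t, t ≠ 0 → ∀ i, ∃ x ∈ angles L, (y t i ^ 2) ^ p = ((Fintype.card L : Qb) * x) ^ p) ∧
    ∀ (E : Type) [Field E] [Fintype E] [DecidableEq E] [Algebra L E] [Algebra k E]
      [IsScalarTower k L E],
      (Fintype.card E : Qb) - 1 - (((Finset.univ : Finset (E × E)).filter fun xz => xz.1 ≠ 0 ∧
        xz.2 ^ Fintype.card k - xz.2 = algebraMap L E A * xz.1 + algebraMap L E B * xz.1⁻¹ +
          algebraMap L E C).card : Qb) =
      ∑ t ∈ (Finset.univ : Finset k).erase 0, ∑ i : Bool, y t i ^ Module.finrank L E := by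
  classical
  have hp : p.Prime := Fact.out
  let χ : k → AddChar L Qb := fun t =>
    (ψ.mulShift t).compAddMonoidHom (Algebra.trace k L).toAddMonoidHom
  have hχ : ∀ t, t ≠ 0 → χ t ≠ 1 := by
    intro t ht h
    obtain ⟨u, hu⟩ := AddChar.ne_one_iff.1 hψ
    obtain ⟨x, hx⟩ := Algebra.trace_surjective k L (t⁻¹ * u)
    have h1 := DFunLike.congr_fun h x
    rw [AddChar.one_apply] at h1
    change ψ.mulShift t (Algebra.trace k L x) = 1 at h1
    rw [hx, AddChar.mulShift_apply, mul_inv_cancel_left₀ ht] at h1
    exact hu h1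
  -- the roots
  have hroots : ∀ t, ∃ w w' : Qb, w + w' = - klo (χ t) A B ∧ w * w' = Fintype.card L := by
    intro t
    obtain ⟨w, hw⟩ := IsAlgClosed.exists_root (X ^ 2 + Polynomial.C (klo (χ t) A B) * X +
      Polynomial.C (Fintype.card L : Qb) : Qb[X]) (by
      rw [show (X ^ 2 + Polynomial.C (klo (χ t) A B) * X +
        Polynomial.C (Fintype.card L : Qb) : Qb[X]).degree = 2 by compute_degree!]
      norm_num)
    refine ⟨w, - klo (χ t) A B - w, by ring, ?_⟩
    simp only [IsRoot.def, eval_add, eval_mul, eval_pow, eval_X, eval_C] at hw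
    linear_combination -hw
  choose w w' h1 h2 using hroots
  have hq : (Fintype.card L : Qb) ≠ 0 := Nat.cast_ne_zero.2 Fintype.card_ne_zero
  refine ⟨fun t i => χ t C * (if i then w t else w' t), ?_, ?_⟩
  · intro t ht i
    have hw' : w' t ≠ 0 := by
      intro h
      have := h2 t
      rw [h, mul_zero] at this
      exact hq this.symm
    have hw : w t ≠ 0 := by
      intro h
      have := h2 t
      rw [h, zero_mul] at this
      exact hq this.symm
    have hC : (χ t C) ^ p = 1 := char_pow (χ t) C
    cases i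
    · refine ⟨w' t / w t, ⟨χ t, hχ t ht, A, B, hA, hB, w' t, w t, by rw [add_comm]; exact h1 t,
        by rw [mul_comm]; exact h2 t, rfl⟩, ?_⟩
      simp only [Bool.false_eq_true, if_false]
      rw [mul_pow, mul_pow, ← pow_mul, mul_comm 2 p, pow_mul, hC, one_pow, one_mul, ← h2 t]
      congr 1
      field_simp
    · refine ⟨w t / w' t, ⟨χ t, hχ t ht, A, B, hA, hB, w t, w' t, h1 t, h2 t, rfl⟩, ?_⟩
      simp only [if_true]
      rw [mul_pow, mul_pow, ← pow_mul, mul_comm 2 p, pow_mul, hC, one_pow, one_mul, ← h2 t]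
      congr 1
      field_simp
  · intro E _ _ _ _ _ _
    obtain ⟨φ₀⟩ : Nonempty (Qb →ₐ[ℚ] ℂ) := ⟨IsAlgClosed.lift⟩
    rw [count_eq hψ A B C]
    rw [show ∀ a b : Qb, a - (a + b) = -b by intros; ring, ← Finset.sum_neg_distrib]
    refine Finset.sum_congr rfl fun t ht => ?_
    have ht0 : t ≠ 0 := Finset.ne_of_mem_erase ht
    have h3 := klo_ext (E := E) φ₀.toRingHom φ₀.toRingHom.injective (hχ t ht0) hA hB (h1 t) (h2 t)
    change -((χ t) C ^ Module.finrank L E * _) = _
    rw [h3, Fintype.sum_bool]
    simp only [Bool.false_eq_true, if_false, if_true]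
    rw [mul_pow, mul_pow]
    ring

end

end Pool.Agent.KS6_5.KL
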