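import Pool.Agent.KS6_5.KL.Equal

/-!
# A mean square bound for the number of unmatched numbers
-/

set_option autoImplicit false
set_option linter.unusedSectionVars false

namespace Pool.Agent.KS6_5.KL

open NumberField Polynomial Pool.Agent.TH121.KT Pool.Agent.KS6_5.SP

noncomputable section

/-- **Mean square bound** for sums with signs. -/
theorem l2_bound {N : Type*} [Group N] {X : Type*} [Fintype X] (θ : N →* (X → ℤˣ))
    {S : Type*} [Fintype S] (y : S → X) (a : S → ℝ) (B lam : ℝ)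
    (hB : ∀ u : N, |∑ k, (((θ u (y k) : ℤˣ) : ℤ) : ℝ) * a k| ≤ B)
    (hsep : ∀ k l, (∀ u, θ u (y k) = θ u (y l)) → a k = a l) (ha : ∀ k, |a k| = lam) :
    (Fintype.card S : ℝ) * lam ^ 2 ≤ B ^ 2 := by
  classical
  let H : Subgroup (X → ℤˣ) := θ.range
  have hfin : Finite (X → ℤˣ) := inferInstance
  let _ : Fintype H := Fintype.ofFinite H
  have hB0 : 0 ≤ B := (abs_nonneg _).trans (hB 1)
  have hBH : ∀ t : H, (∑ k, (((t.1 (y k) : ℤˣ) : ℤ) : ℝ) * a k) ^ 2 ≤ B ^ 2 := by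
    rintro ⟨_, u, rfl⟩
    exact sq_le_sq' (abs_le.1 (hB u)).1 (abs_le.1 (hB u)).2
  have hcard : (0 : ℝ) < Fintype.card H := Nat.cast_pos.2 Fintype.card_pos
  -- orthogonality
  have horth : ∀ k l, ∑ t : H, ((((t.1 (y k) : ℤˣ) : ℤ) : ℝ) * a k) *
      ((((t.1 (y l) : ℤˣ) : ℤ) : ℝ) * a l) =
      if (∀ u, θ u (y k) = θ u (y l)) then (Fintype.card H : ℝ) * lam ^ 2 else 0 := by
    intro k l
    split_ifs with h
    · have h1 : ∀ t : H, ((((t.1 (y k) : ℤˣ) : ℤ) : ℝ) * a k) *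
          ((((t.1 (y l) : ℤˣ) : ℤ) : ℝ) * a l) = lam ^ 2 := by
        rintro ⟨_, u, rfl⟩
        simp only
        rw [h u, ← hsep k l h, ← ha k, sq_abs]
        have h2 : ((((θ u (y l) : ℤˣ) : ℤ) : ℝ)) * ((((θ u (y l) : ℤˣ) : ℤ) : ℝ)) = 1 := by
          rw [← Int.cast_mul, ← Units.val_mul, Int.units_mul_self]
          simp
        linear_combination (a k ^ 2) * h2
      rw [Finset.sum_congr rfl fun t _ => h1 t, Finset.sum_const, Finset.card_univ, nsmul_eq_mul]
    · push Not at h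
      obtain ⟨u, hu⟩ := h
      have h1 : ∑ t : H, ((((t.1 (y k) : ℤˣ) : ℤ) : ℝ) * a k) *
          ((((t.1 (y l) : ℤˣ) : ℤ) : ℝ) * a l) =
          ∑ t : H, -(((((t.1 (y k) : ℤˣ) : ℤ) : ℝ) * a k) *
          ((((t.1 (y l) : ℤˣ) : ℤ) : ℝ) * a l)) := by
        refine Fintype.sum_equiv (Equiv.mulRight (⟨θ u, u, rfl⟩ : H)) _ _ fun t => ?_
        simp only [Equiv.coe_mulRight, Subgroup.coe_mul, Pi.mul_apply, Units.val_mul,
          Int.cast_mul]
        have h3 : ((((θ u (y k) : ℤˣ) : ℤ) : ℝ)) * ((((θ u (y l) : ℤˣ) : ℤ) : ℝ)) = -1 := by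
          rcases Int.units_eq_one_or (θ u (y k)) with h4 | h4 <;>
            rcases Int.units_eq_one_or (θ u (y l)) with h5 | h5
          · exact absurd (h4.trans h5.symm) hu
          · rw [h4, h5]; simp
          · rw [h4, h5]; simp
          · exact absurd (h4.trans h5.symm) hu
        linear_combination ((((t.1 (y k) : ℤˣ) : ℤ) : ℝ) * a k *
          (((t.1 (y l) : ℤˣ) : ℤ) : ℝ) * a l) * h3
      rw [Finset.sum_neg_distrib] at h1
      linarith
  have h1 : ∑ t : H, (∑ k, (((t.1 (y k) : ℤˣ) : ℤ) : ℝ) * a k) ^ 2 =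
      ∑ k, ∑ l, if (∀ u, θ u (y k) = θ u (y l)) then (Fintype.card H : ℝ) * lam ^ 2 else 0 := by
    have h2 : ∀ t : H, (∑ k, (((t.1 (y k) : ℤˣ) : ℤ) : ℝ) * a k) ^ 2 =
        ∑ k, ∑ l, ((((t.1 (y k) : ℤˣ) : ℤ) : ℝ) * a k) *
          ((((t.1 (y l) : ℤˣ) : ℤ) : ℝ) * a l) := by
      intro t
      rw [sq, Finset.sum_mul_sum]
    rw [Finset.sum_congr rfl fun t _ => h2 t, Finset.sum_comm]
    refine Finset.sum_congr rfl fun k _ => ?_
    rw [Finset.sum_comm]
    exact Finset.sum_congr rfl fun l _ => horth k l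
  have h2 : ∑ k : S, (Fintype.card H : ℝ) * lam ^ 2 ≤
      ∑ k, ∑ l, if (∀ u, θ u (y k) = θ u (y l)) then (Fintype.card H : ℝ) * lam ^ 2 else 0 := by
    refine Finset.sum_le_sum fun k _ => ?_
    refine le_trans ?_ (Finset.single_le_sum (f := fun l => if (∀ u, θ u (y k) = θ u (y l)) then
      (Fintype.card H : ℝ) * lam ^ 2 else 0) (fun l _ => ?_) (Finset.mem_univ k))
    · change _ ≤ if (∀ u, θ u (y k) = θ u (y k)) then (Fintype.card H : ℝ) * lam ^ 2 else 0
      rw [if_pos (fun _ => rfl)]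
    · split_ifs
      · positivity
      · exact le_rfl
  have h3 : ∑ t : H, (∑ k, (((t.1 (y k) : ℤˣ) : ℤ) : ℝ) * a k) ^ 2 ≤ ∑ _t : H, B ^ 2 :=
    Finset.sum_le_sum fun t _ => hBH t
  rw [Finset.sum_const, Finset.card_univ, nsmul_eq_mul] at h3
  rw [Finset.sum_const, Finset.card_univ, nsmul_eq_mul] at h2
  rw [h1] at h3
  have h4 := h2.trans h3
  have h5 : (Fintype.card H : ℝ) * ((Fintype.card S : ℝ) * lam ^ 2) ≤
      (Fintype.card H : ℝ) * B ^ 2 := by
    linarith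
  exact le_of_mul_le_mul_left h5 hcard

variable {p : ℕ} [Fact p.Prime] {F : IntermediateField ℚ Qb} {lam : ℝ} {A : Finset Qb}

/-- two numbers with the same signs are equal or inverse up to torsion -/
theorem EqualSlopes.same_signs [FiniteDimensional ℚ F] (H : EqualSlopes p F lam A)
    (ι : Qb →+* PadicAlgCl p) {x y : Qb} (hx : x ∈ A) (hy : y ∈ A) {n : ℕ} (hn : 0 < n)
    (hs : ∀ h : GQ, (∀ z ∈ F, h z = z) → (h (x ^ n) = x ^ n ↔ h (y ^ n) = y ^ n)) :
    ∃ r : ℕ, 0 < r ∧ (y ^ r = x ^ r ∨ y ^ r = x⁻¹ ^ r) := by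
  have hn' : (0 : ℝ) < n := Nat.cast_pos.2 hn
  have hx0 := H.ne_zero hx
  have hy0 := H.ne_zero hy
  have hnorm : ∀ (g : GQ) (z : Qb), z ≠ 0 → 0 < ‖ι (g z)‖ := fun g z hz =>
    norm_pos_iff.2 ((_root_.map_ne_zero _).2 ((_root_.map_ne_zero _).2 hz))
  have hxl : Real.log ‖ι ((1 : GQ) x)‖ ≠ 0 := by
    intro h0
    have h1 := H.slope x hx (ι.comp ((1 : GQ) : Qb →+* Qb))
    change |Real.log ‖ι ((1 : GQ) x)‖| = lam at h1
    rw [h0, abs_zero] at h1
    exact H.pos.ne h1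
  refine H.prop ι hx hy (Real.log ‖ι ((1 : GQ) y)‖ / Real.log ‖ι ((1 : GQ) x)‖) fun g => ?_
  obtain ⟨k, hk, hk'⟩ := places_conj ι F (1 : GQ) g (fun z hz =>
    H.place (ι.comp ((1 : GQ) : Qb →+* Qb)) (ι.comp (g : Qb →+* Qb)) z hz)
  have e1 : ∀ z : Qb, Real.log ‖ι (g z)‖ = Real.log ‖ι (k z)‖ := fun z => by
    rw [hk' z]
    rfl
  have e2 : ∀ z ∈ A, (k (z ^ n) = z ^ n → Real.log ‖ι (k z)‖ = Real.log ‖ι z‖) ∧
      (k (z ^ n) ≠ z ^ n → Real.log ‖ι (k z)‖ = - Real.log ‖ι z‖) := by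
    intro z hz
    have hz0 := H.ne_zero hz
    constructor
    · intro h
      have h1 := congrArg (fun w => Real.log ‖ι w‖) h
      simp only [map_pow, norm_pow, Real.log_pow] at h1
      exact mul_left_cancel₀ hn'.ne' h1
    · intro h
      rcases H.sign k hk z hz with h1 | h1
      · exact absurd (by rw [map_pow, h1]) h
      · rw [h1, map_inv₀, norm_inv, Real.log_inv]
  rw [e1, e1]
  change _ = Real.log ‖ι y‖ / Real.log ‖ι x‖ * _
  have hxl' : Real.log ‖ι x‖ ≠ 0 := hxl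
  by_cases hkx : k (x ^ n) = x ^ n
  · rw [(e2 x hx).1 hkx, (e2 y hy).1 ((hs k hk).1 hkx)]
    field_simp
  · rw [(e2 x hx).2 hkx, (e2 y hy).2 (fun h => hkx ((hs k hk).2 h))]
    field_simp

/-- **The number of unmatched factors.** -/
theorem EqualSlopes.card_le [FiniteDimensional ℚ F] (H : EqualSlopes p F lam A)
    (ι : Qb →+* PadicAlgCl p) {t n : ℕ}
    (ht : ∀ x ∈ A, ∀ y ∈ A, (∃ r : ℕ, 0 < r ∧ x ^ r = y ^ r) → x ^ t = y ^ t)
    (hn : 0 < n) (htn : t ∣ n) {S : Type} [Fintype S] (x : S → Qb) (hx : ∀ k, x k ∈ A)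
    (hop : ∀ k l, x k ^ n ≠ (x l ^ n)⁻¹)
    (f : GQ → ℝ) (c w : ℝ) (hf : ∀ g, |f g - c| ≤ w * (n * lam))
    (hrel : ∀ g : GQ, ∑ k, Real.log ‖ι (g (x k ^ n))‖ = f g) :
    (Fintype.card S : ℝ) ≤ w ^ 2 := by
  classical
  have hn' : (0 : ℝ) < n := Nat.cast_pos.2 hn
  have hlam := H.pos
  have htn' : ∀ x ∈ A, ∀ y ∈ A, (∃ r : ℕ, 0 < r ∧ x ^ r = y ^ r) → x ^ n = y ^ n := by
    intro x hx y hy h
    obtain ⟨d, rfl⟩ := htn
    rw [pow_mul, pow_mul, ht x hx y hy h]
  obtain ⟨kc, hkc⟩ := H.exists_inv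
  -- the bound without the constant
  have hf' : ∀ g, |f g| ≤ w * (n * lam) := by
    intro g
    have h1 : f (g * kc) = - f g := by
      rw [← hrel, ← hrel, ← Finset.sum_neg_distrib]
      refine Finset.sum_congr rfl fun k _ => ?_
      have h2 : (g * kc) (x k ^ n) = (g (x k ^ n))⁻¹ := by
        change g (kc (x k ^ n)) = _
        rw [map_pow, hkc _ (hx k), inv_pow, map_inv₀]
      rw [h2, map_inv₀, norm_inv, Real.log_inv]
    have h2 := abs_le.1 (hf g)
    have h3 := abs_le.1 (hf (g * kc))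
    rw [h1] at h3
    rw [abs_le]
    constructor <;> linarith [h2.1, h2.2, h3.1, h3.2]
  -- the signs
  let N : Subgroup GQ :=
    { carrier := {h | ∀ z ∈ F, h z = z}
      mul_mem' := by
        intro a b ha hb z hz
        change a (b z) = z
        rw [hb z hz, ha z hz]
      one_mem' := fun z _ => rfl
      inv_mem' := by
        intro a ha z hz
        have h1 := ha z hz
        change a.symm z = z
        rw [AlgEquiv.symm_apply_eq, h1] }
  have hne : ∀ k, x k ^ n ≠ (x k ^ n)⁻¹ := fun k => hop k k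
  let X : Type := {y : Qb // y ∈ A.image (fun x => x ^ n)}
  let _ : Fintype X := Finset.Subtype.fintype (A.image (fun x => x ^ n))
  have hX : ∀ y : X, ∃ x ∈ A, x ^ n = y.1 := fun y => Finset.mem_image.1 y.2
  have hsl : ∀ y : X, y.1 ≠ y.1⁻¹ := by
    intro y h
    obtain ⟨z, hz, he⟩ := hX y
    rw [← he] at h
    have h2 := congrArg (fun w => Real.log ‖ι w‖) h
    simp only [map_inv₀, norm_inv, Real.log_inv, map_pow, norm_pow, Real.log_pow] at h2
    have h3 : (n : ℝ) * Real.log ‖ι z‖ = 0 := by linarith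
    have h4 := (mul_eq_zero.1 h3).resolve_left hn'.ne'
    have h5 := H.slope z hz ι
    rw [h4, abs_zero] at h5
    exact hlam.ne h5
  have hsg : ∀ (h : N) (y : X), h.1 y.1 = y.1 ∨ h.1 y.1 = y.1⁻¹ := by
    intro h y
    obtain ⟨z, hz, he⟩ := hX y
    rw [← he]
    rcases H.sign h.1 h.2 z hz with h1 | h1
    · left; rw [map_pow, h1]
    · right; rw [map_pow, h1, inv_pow]
  let θ : N →* (X → ℤˣ) :=
    { toFun := fun h y => if h.1 y.1 = y.1 then 1 else -1
      map_one' := by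
        funext y
        exact if_pos rfl
      map_mul' := by
        intro a b
        funext y
        change (if a.1 (b.1 y.1) = y.1 then (1 : ℤˣ) else -1) = (if a.1 y.1 = y.1 then 1 else -1) *
          (if b.1 y.1 = y.1 then 1 else -1)
        have hne' : y.1⁻¹ ≠ y.1 := (hsl y).symm
        rcases hsg b y with h1 | h1 <;> rcases hsg a y with h2 | h2
        · rw [h1, h2]; simp
        · rw [h1, h2, if_neg hne', if_pos rfl]; simp
        · rw [h1, map_inv₀, h2, if_neg hne', if_pos rfl]; simp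
        · rw [h1, map_inv₀, h2, if_neg hne', inv_inv, if_pos rfl]; simp }
  have hθ : ∀ (h : N) (y : X), θ h y = if h.1 y.1 = y.1 then 1 else -1 := fun h y => rfl
  let y : S → X := fun k => ⟨x k ^ n, Finset.mem_image_of_mem (fun x => x ^ n) (hx k)⟩
  have hmain := l2_bound θ y (fun k => Real.log ‖ι (x k ^ n)‖) (w * (n * lam)) (n * lam)
    (by
      intro h
      have h1 : ∑ k, (((θ h (y k) : ℤˣ) : ℤ) : ℝ) * Real.log ‖ι (x k ^ n)‖ = f h.1 := by
        rw [← hrel]
        refine Finset.sum_congr rfl fun k _ => ?_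
        rw [hθ]
        rcases hsg h (y k) with h2 | h2
        · rw [if_pos h2]
          change _ = Real.log ‖ι (h.1 (y k).1)‖
          rw [h2]
          simp [y]
        · rw [if_neg (by rw [h2]; exact (hsl (y k)).symm)]
          change _ = Real.log ‖ι (h.1 (y k).1)‖
          rw [h2, map_inv₀, norm_inv, Real.log_inv]
          simp [y]
      rw [h1]
      exact hf' h.1)
    (by
      intro k l hkl
      obtain ⟨r, hr, h⟩ := H.same_signs ι (hx k) (hx l) hn (fun g hg => by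
        have h1 := hkl ⟨g, hg⟩
        rw [hθ, hθ] at h1
        change (if g (x k ^ n) = x k ^ n then (1 : ℤˣ) else -1) =
          if g (x l ^ n) = x l ^ n then 1 else -1 at h1
        by_cases e1 : g (x k ^ n) = x k ^ n <;> by_cases e2 : g (x l ^ n) = x l ^ n
        · exact ⟨fun _ => e2, fun _ => e1⟩
        · rw [if_pos e1, if_neg e2] at h1
          exact absurd h1 (by decide)
        · rw [if_neg e1, if_pos e2] at h1
          exact absurd h1 (by decide)
        · exact ⟨fun h => absurd h e1, fun h => absurd h e2⟩)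
      rcases h with h | h
      · have h2 := htn' (x l) (hx l) (x k) (hx k) ⟨r, hr, h⟩
        rw [h2]
      · have h2 := htn' (x l) (hx l) (x k)⁻¹ (H.inv_mem (hx k)) ⟨r, hr, h⟩
        rw [inv_pow] at h2
        exact absurd h2 (hop l k))
    (by
      intro k
      simp only [map_pow, norm_pow, Real.log_pow, abs_mul, abs_of_pos hn']
      rw [H.slope _ (hx k) ι])
  have hpos : 0 < (n * lam) ^ 2 := pow_pos (mul_pos hn' hlam) 2
  rw [show (w * (n * lam)) ^ 2 = w ^ 2 * (n * lam) ^ 2 from mul_pow _ _ _] at hmain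
  exact le_of_mul_le_mul_right hmain hpos

end

end Pool.Agent.KS6_5.KL
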