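import Pool.Graph.R_seed8.H498R2.KlWeil

/-!
# The `L`-function of a Kloosterman sum has degree two and constant `q`
-/

set_option autoImplicit false
set_option linter.unusedSectionVars false

namespace Pool.Agent.KS6_5.KL

open Polynomial Finset
open Pool.Agent.H341R2.Sharp Pool.Agent.H498R2.Kl

section two

variable {F : Type*} [Field F] [Fintype F] [DecidableEq F]

theorem sum_shift {ψ : AddChar F ℂ} (hψ : ψ ≠ 1) (c : F) :
    ∑ s : F, ψ (s * c) = if c = 0 then (Fintype.card F : ℂ) else 0 := by
  by_cases hc : c = 0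
  · rw [if_pos hc, hc]
    simp
  · rw [if_neg hc]
    have h1 : ∑ s : F, ψ (s * c) = ∑ s : F, ψ s :=
      Fintype.sum_equiv (Equiv.mulRight₀ c hc) _ _ fun s => rfl
    rw [h1]
    exact AddChar.sum_eq_zero_of_ne_one hψ

/-- the sum over the monic quadratic polynomials -/
theorem AG_two {ψ : AddChar F ℂ} (hψ : ψ ≠ 1) {a b : F} (ha : a ≠ 0) (hb : b ≠ 0) :
    AG (lamK ψ a b) 2 = Fintype.card F := by
  classical
  have h1 : AG (lamK ψ a b) 2 = ∑ st : F × F, (if st.2 = 0 then 0 else
      ψ (st.1 * (-(a + b / st.2)))) := by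
    unfold AG
    symm
    refine Finset.sum_bij' (fun st _ => X ^ 2 + C st.1 * X + C st.2)
      (fun h _ => (h.coeff 1, h.coeff 0)) ?_ ?_ ?_ ?_ ?_
    · intro st _
      rw [mem_Mon]
      refine ⟨?_, ?_⟩
      · monicity!
      · compute_degree!
    · intro h _
      exact mem_univ _
    · intro st _
      simp [coeff_X, coeff_C]
    · intro h hh
      rw [mem_Mon] at hh
      have h2 := hh.1.as_sum
      rw [hh.2] at h2
      simp only [sum_range_succ, sum_range_zero, pow_zero, mul_one, zero_add, pow_one] at h2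
      conv_rhs => rw [h2]
      ring
    · intro st _
      have e0 : (X ^ 2 + C st.1 * X + C st.2 : F[X]).coeff 0 = st.2 := by simp
      have e1 : (X ^ 2 + C st.1 * X + C st.2 : F[X]).coeff 1 = st.1 := by simp [coeff_C]
      have e2 : (X ^ 2 + C st.1 * X + C st.2 : F[X]).natDegree = 2 := by compute_degree!
      have e3 : (X ^ 2 + C st.1 * X + C st.2 : F[X]).nextCoeff = st.1 := by
        rw [nextCoeff_of_natDegree_pos (by rw [e2]; norm_num), e2]
        exact e1
      unfold lamK
      rw [e0, e1, e3]
      split_ifs with h0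
      · rfl
      · congr 1
        field_simp
  rw [h1, Fintype.sum_prod_type_right]
  have h2 : ∀ t : F, ∑ s : F, (if t = 0 then (0 : ℂ) else ψ (s * (-(a + b / t)))) =
      if t = -(b / a) then (Fintype.card F : ℂ) else 0 := by
    intro t
    by_cases ht : t = 0
    · subst ht
      rw [if_neg (by
        intro h
        exact neg_ne_zero.2 (div_ne_zero hb ha) h.symm)]
      simp
    · simp only [if_neg ht]
      rw [sum_shift hψ]
      congr 1
      rw [neg_eq_zero]
      apply propext
      constructor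
      · intro h
        field_simp at h ⊢
        linear_combination h
      · intro h
        rw [h]
        field_simp
        ring
  simp only at h2 ⊢
  rw [Finset.sum_congr rfl fun t _ => h2 t, Finset.sum_ite_eq' Finset.univ,
    if_pos (Finset.mem_univ _)]

/-- the power sums -/
theorem TG_eq {ψ : AddChar F ℂ} (hψ : ψ ≠ 1) {a b : F} (ha : a ≠ 0) (hb : b ≠ 0) {w w' : ℂ}
    (h1 : w + w' = - TG (lamK ψ a b) 1) (h2 : w * w' = Fintype.card F) (m : ℕ) (hm : 1 ≤ m) :
    TG (lamK ψ a b) m = -(w ^ m + w' ^ m) := by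
  have hl := lamK_mult ψ a b
  have e0 := AG_zero hl
  have e1 : AG (lamK ψ a b) 1 = TG (lamK ψ a b) 1 := by
    have := n_mul_AG hl 1
    rw [Icc_self, sum_singleton, Nat.sub_self, e0] at this
    simpa using this
  have e2 := AG_two hψ ha hb
  have h3 : ∀ n, 3 ≤ n → AG (lamK ψ a b) n = 0 := fun n hn => AK_eq_zero hψ ha b n hn
  -- recursion
  have hrec2 : TG (lamK ψ a b) 2 = 2 * Fintype.card F - TG (lamK ψ a b) 1 ^ 2 := by
    have := n_mul_AG hl 2
    rw [show Icc 1 2 = {1, 2} by decide, sum_pair (by norm_num), e2] at this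
    simp only [show 2 - 1 = 1 by norm_num, Nat.sub_self] at this
    rw [e0, e1] at this
    push_cast at this
    linear_combination -this
  have hrec : ∀ n, 1 ≤ n → TG (lamK ψ a b) (n + 2) = - (TG (lamK ψ a b) 1 *
      TG (lamK ψ a b) (n + 1)) - Fintype.card F * TG (lamK ψ a b) n := by
    intro n hn
    have := n_mul_AG hl (n + 2)
    rw [h3 (n + 2) (by omega), mul_zero] at this
    have h4 : ∑ m ∈ Icc 1 (n + 2), AG (lamK ψ a b) (n + 2 - m) * TG (lamK ψ a b) m =
        ∑ m ∈ Icc n (n + 2), AG (lamK ψ a b) (n + 2 - m) * TG (lamK ψ a b) m := by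
      symm
      apply sum_subset
      · intro m hm
        rw [mem_Icc] at hm ⊢
        omega
      · intro m hm hm'
        rw [mem_Icc] at hm hm'
        rw [h3 _ (by omega), zero_mul]
    rw [h4] at this
    have h5 : Icc n (n + 2) = {n, n + 1, n + 2} := by
      ext m
      simp only [mem_Icc, mem_insert, mem_singleton]
      omega
    rw [h5, sum_insert (by simp), sum_pair (by omega)] at this
    rw [show n + 2 - n = 2 by omega, show n + 2 - (n + 1) = 1 by omega,
      Nat.sub_self, e2, e1, e0] at this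
    linear_combination -this
  have hK : TG (lamK ψ a b) 1 = -(w + w') := by linear_combination h1
  have key : ∀ n, TG (lamK ψ a b) (n + 1) = -(w ^ (n + 1) + w' ^ (n + 1)) ∧
      TG (lamK ψ a b) (n + 2) = -(w ^ (n + 2) + w' ^ (n + 2)) := by
    intro n
    induction n with
    | zero =>
      refine ⟨?_, ?_⟩
      · rw [zero_add, hK]
        ring
      · rw [zero_add, hrec2, hK, ← h2]
        ring
    | succ n ih =>
      refine ⟨ih.2, ?_⟩
      rw [hrec (n + 1) (by omega), ih.1, ih.2, hK, ← h2]
      ring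
  obtain ⟨n, rfl⟩ := Nat.exists_eq_add_of_le' hm
  exact (key n).1

/-- the Kloosterman sum with values in any ring -/
def klo {L R : Type*} [Field L] [Fintype L] [DecidableEq L] [CommRing R] (ψ : AddChar L R)
    (a b : L) : R := ∑ x : L, if x = 0 then 0 else ψ (a * x + b * x⁻¹)

theorem TG_one (ψ : AddChar F ℂ) (a b : F) : TG (lamK ψ a b) 1 = klo ψ a b := by
  have h4 := TK_eq_sum (F := F) (E := F) ψ a b
  rw [Module.finrank_self] at h4
  rw [h4]
  unfold klo
  apply sum_congr rfl
  intro x _
  simp

theorem map_klo {R S : Type*} [CommRing R] [CommRing S] (φ : R →+* S) (ψ : AddChar F R)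
    (a b : F) : φ (klo ψ a b) = klo ((φ : R →* S).compAddChar ψ) a b := by
  unfold klo
  rw [map_sum]
  apply sum_congr rfl
  intro x _
  split_ifs
  · exact map_zero φ
  · rfl

end two

/-- **Kloosterman sums over extensions** are the negatives of power sums of two numbers with
product `q`. -/
theorem klo_ext {L E R : Type*} [Field L] [Fintype L] [DecidableEq L] [Field E] [Fintype E]
    [DecidableEq E] [Algebra L E] [CommRing R] (φ : R →+* ℂ) (hφ : Function.Injective φ)
    {ψ : AddChar L R} (hψ : ψ ≠ 1) {a b : L} (ha : a ≠ 0) (hb : b ≠ 0) {w w' : R}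
    (h1 : w + w' = - klo ψ a b) (h2 : w * w' = Fintype.card L) :
    klo (ψ.compAddMonoidHom (Algebra.trace L E).toAddMonoidHom) (algebraMap L E a)
      (algebraMap L E b) = -(w ^ (Module.finrank L E) + w' ^ (Module.finrank L E)) := by
  apply hφ
  have h3 : ((φ : R →* ℂ).compAddChar ψ) ≠ 1 := by
    intro h
    apply hψ
    ext x
    apply hφ
    have := DFunLike.congr_fun h x
    rw [AddChar.one_apply, map_one]
    exact this
  have h4 := TK_eq_sum (F := L) (E := E) ((φ : R →* ℂ).compAddChar ψ) a b
  rw [TG_eq h3 ha hb (w := φ w) (w' := φ w') (by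
    rw [TG_one, ← map_klo, ← map_add, h1, map_neg]) (by
    rw [← map_mul, h2, map_natCast]) _ Module.finrank_pos] at h4
  rw [map_neg, map_add, map_pow, map_pow, h4, map_klo]
  rfl

end Pool.Agent.KS6_5.KL
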